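import Pool.Agent.H1.Lor.BGlue

/-!
# Algebra of curvature tensors and Lorentz forms
-/

namespace Pool.H1.Lor.CT

open Set Module
open Pool.MP_5bfe9a_gt

section curv

variable {V : Type*} [AddCommGroup V]

/-- An algebraic curvature tensor without sectional curvature vanishes. -/
theorem curv_zero {T : V → V → V → V → ℝ}
    (a1 : ∀ u u' v w x, T (u + u') v w x = T u v w x + T u' v w x)
    (a2 : ∀ u v v' w x, T u (v + v') w x = T u v w x + T u v' w x)
    (a3 : ∀ u v w w' x, T u v (w + w') x = T u v w x + T u v w' x)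
    (a4 : ∀ u v w x x', T u v w (x + x') = T u v w x + T u v w x')
    (s1 : ∀ u v w x, T u v w x = - T v u w x)
    (s2 : ∀ u v w x, T u v w x = - T u v x w)
    (s3 : ∀ u v w x, T u v w x + T v w u x + T w u v x = 0)
    (h : ∀ u v, T u v v u = 0) (u v w x : V) : T u v w x = 0 := by
  have pair : ∀ u v w x, T u v w x = T w x u v := by
    intro u v w x
    have b1 := s3 u v w x
    have b2 := s3 v w x u
    have b3 := s3 w x u v
    have b4 := s3 x u v w
    have e1 := s2 v w u x
    have e2 := s2 w u v x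
    have e3 := s1 w u x v
    have e4 := s2 w x v u
    have e5 := s1 x v w u
    have e6 := s2 v x w u
    have e7 := s2 x u w v
    have e8 := s2 u v x w
    linarith
  have t1 : ∀ u v x, T u v v x = 0 := by
    intro u v x
    have h1 := h (u + x) v
    rw [a1, a4, a4] at h1
    have h2 := pair x v v u
    have h3 := s1 v u x v
    have h4 := s2 u v x v
    have h5 := h u v
    have h6 := h x v
    linarith
  have t2 : ∀ u v w x, T u v w x = - T u w v x := by
    intro u v w x
    have h1 := t1 u (v + w) x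
    rw [a2, a3, a3, t1, t1] at h1
    linarith
  have t3 : ∀ u v w x, T u v w x = T w u v x := by
    intro u v w x
    rw [t2, s1 w u v x]
  have h1 := s3 u v w x
  have h2 := t3 u v w x
  have h3 := t3 w u v x
  linarith

end curv

variable {V : Type*} [AddCommGroup V] [Module ℝ V] [FiniteDimensional ℝ V] {q : V → V → ℝ}

theorem exists_nondeg (hq : IsLorentzForm q) (hdim : 2 ≤ finrank ℝ V) :
    ∃ u v : V, q u u * q v v - q u v ^ 2 ≠ 0 := by
  obtain ⟨τ, hτ, hpos⟩ := hq.signature
  have h1 : LinearMap.ker (lorLin hq τ) ≠ ⊥ := by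
    apply LinearMap.ker_ne_bot_of_finrank_lt
    rw [finrank_self]
    omega
  obtain ⟨v, hv, hv0⟩ := Submodule.exists_mem_ne_zero_of_ne_bot h1
  have hv' : q τ v = 0 := hv
  refine ⟨τ, v, ?_⟩
  rw [hv']
  have := hpos v hv' hv0
  have h2 : q τ τ * q v v < 0 := mul_neg_of_neg_of_pos hτ this
  simp only [ne_eq, OfNat.ofNat_ne_zero, not_false_eq_true, zero_pow, sub_zero]
  exact h2.ne

theorem quartic_finite (a0 a1 a2 a3 a4 : ℝ) (h : a4 ≠ 0) :
    {s : ℝ | a4 * s ^ 4 + a3 * s ^ 3 + a2 * s ^ 2 + a1 * s + a0 = 0}.Finite := by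
  set p : Polynomial ℝ := Polynomial.C a4 * Polynomial.X ^ 4 + Polynomial.C a3 * Polynomial.X ^ 3 +
    Polynomial.C a2 * Polynomial.X ^ 2 + Polynomial.C a1 * Polynomial.X + Polynomial.C a0 with hp
  have hp0 : p ≠ 0 := by
    intro h0
    have h1 : p.coeff 4 = a4 := by
      simp [hp, Polynomial.coeff_X, Polynomial.coeff_C, Polynomial.coeff_X_pow]
    rw [h0] at h1
    simp at h1
    exact h h1.symm
  refine (Polynomial.finite_setOf_isRoot hp0).subset fun s hs => ?_
  simp only [mem_setOf_eq] at hs ⊢
  simp [Polynomial.IsRoot, hp, hs]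

/-- A function of two vectors which vanishes on the bases of nondegenerate planes vanishes. -/
theorem sect_all (hq : IsLorentzForm q) (hdim : 2 ≤ finrank ℝ V) {S : V → V → ℝ}
    (hc : ∀ u v u0 v0, Continuous fun s : ℝ => S (u + s • u0) (v + s • v0))
    (h : ∀ u v, q u u * q v v - q u v ^ 2 ≠ 0 → S u v = 0) (u v : V) : S u v = 0 := by
  obtain ⟨u0, v0, h0⟩ := exists_nondeg hq hdim
  have hfin : {s : ℝ | q (u + s • u0) (u + s • u0) * q (v + s • v0) (v + s • v0) -
      q (u + s • u0) (v + s • v0) ^ 2 = 0}.Finite := by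
    have h1 : ∀ (a b c d : V) (s : ℝ), q (a + s • b) (c + s • d) =
        q a c + s * (q a d + q b c) + s ^ 2 * q b d := by
      intro a b c d s
      have e1 := lorLin_apply hq (a + s • b) (c + s • d)
      rw [← e1]
      simp only [map_add, map_smul, LinearMap.add_apply, LinearMap.smul_apply, smul_eq_mul]
      simp only [lorLin_apply]
      ring
    refine (quartic_finite
      (q u u * q v v - q u v ^ 2)
      ((q u u0 + q u0 u) * q v v + q u u * (q v v0 + q v0 v) - 2 * q u v * (q u v0 + q u0 v))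
      (q u0 u0 * q v v + (q u u0 + q u0 u) * (q v v0 + q v0 v) + q u u * q v0 v0
        - (q u v0 + q u0 v) ^ 2 - 2 * q u v * q u0 v0)
      (q u0 u0 * (q v v0 + q v0 v) + (q u u0 + q u0 u) * q v0 v0 -
        2 * (q u v0 + q u0 v) * q u0 v0)
      (q u0 u0 * q v0 v0 - q u0 v0 ^ 2) h0).subset fun s hs => ?_
    simp only [mem_setOf_eq] at hs ⊢
    rw [h1, h1, h1] at hs
    rw [← hs]
    ring
  have hd := hfin.countable.dense_compl ℝ
  have h2 : (fun s : ℝ => S (u + s • u0) (v + s • v0)) = fun _ => 0 := by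
    refine (hc u v u0 v0).ext_on hd continuous_const fun s hs => ?_
    exact h _ _ hs
  have h3 := congrFun h2 0
  simpa using h3

/-- Orthonormal bases of Lorentz forms. -/
theorem exists_lor_basis (hq : IsLorentzForm q) :
    ∃ (b : Basis (Fin (finrank ℝ V)) ℝ V) (i₀ : Fin (finrank ℝ V)), ∀ i j,
      q (b i) (b j) = if i = j then (if i = i₀ then -1 else 1) else 0 := by
  obtain ⟨v, hv⟩ := LinearMap.BilinForm.exists_orthogonal_basis (B := lorLin hq)
    ⟨fun x y => by simp [lorLin_apply, hq.symm x y]⟩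
  have hv' : ∀ i j, i ≠ j → q (v i) (v j) = 0 := fun i j hij => hv hij
  have hd : ∀ i, q (v i) (v i) ≠ 0 := by
    intro i hi
    have h1 : lorLin hq (v i) = 0 := v.ext fun j => by
      rw [lorLin_apply, LinearMap.zero_apply]
      by_cases hij : i = j
      · rw [← hij, hi]
      · exact hv' i j hij
    have h2 : v i = 0 := lorentz_nondeg hq fun w => by
      rw [← lorLin_apply hq, h1, LinearMap.zero_apply]
    exact v.ne_zero i h2
  set c : Fin (finrank ℝ V) → ℝ := fun i => (Real.sqrt |q (v i) (v i)|)⁻¹ with hc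
  have hc0 : ∀ i, 0 < c i := fun i => inv_pos.2 (Real.sqrt_pos.2 (abs_pos.2 (hd i)))
  have hsm : ∀ (a b : ℝ) (x y : V), q (a • x) (b • y) = a * b * q x y := by
    intro a b x y
    rw [hq.map_smul, hq.symm (a • x) y, hq.map_smul, hq.symm y x]; ring
  set b : Basis (Fin (finrank ℝ V)) ℝ V := v.isUnitSMul (fun i => (hc0 i).ne'.isUnit) with hb
  have hbi : ∀ i, b i = c i • v i := fun i => by rw [hb, Basis.isUnitSMul_apply]
  have hbb : ∀ i, q (b i) (b i) = if q (v i) (v i) < 0 then -1 else 1 := by
    intro i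
    rw [hbi, hsm]
    have h1 : c i * c i = |q (v i) (v i)|⁻¹ := by
      rw [hc]
      simp only
      rw [← mul_inv, Real.mul_self_sqrt (abs_nonneg _)]
    rw [h1]
    split_ifs with h2
    · rw [abs_of_neg h2]
      have := h2.ne
      field_simp
    · rw [abs_of_nonneg (not_lt.1 h2)]
      have := hd i
      field_simp
  have hboff : ∀ i j, i ≠ j → q (b i) (b j) = 0 := by
    intro i j hij
    rw [hbi, hbi, hsm, hv' i j hij, mul_zero]
  obtain ⟨τ, hτ, hpos⟩ := hq.signature
  -- some basis vector is negative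
  have hex : ∃ i₀, q (v i₀) (v i₀) < 0 := by
    by_contra hcon
    push Not at hcon
    have h1 : 0 ≤ q τ τ := by
      have e1 : q τ τ = ∑ i, b.repr τ i * b.repr τ i * q (b i) (b i) := by
        rw [← lorLin_apply hq]
        conv_lhs => rw [← b.sum_repr τ]
        simp only [map_sum, LinearMap.sum_apply, map_smul, LinearMap.smul_apply, smul_eq_mul]
        refine Finset.sum_congr rfl fun i _ => ?_
        rw [Finset.sum_eq_single i]
        · rw [lorLin_apply]; ring
        · intro j _ hj
          rw [lorLin_apply, hboff _ _ hj]; ring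
        · simp
      rw [e1]
      refine Finset.sum_nonneg fun i _ => ?_
      rw [hbb, if_neg (not_lt.2 (hcon i))]
      nlinarith [mul_self_nonneg (b.repr τ i)]
    linarith
  obtain ⟨i₀, hi₀⟩ := hex
  have huniq : ∀ j, q (v j) (v j) < 0 → j = i₀ := by
    intro j hj
    by_contra hne
    have hbi₀ : q (b i₀) (b i₀) = -1 := by rw [hbb, if_pos hi₀]
    have hbj : q (b j) (b j) = -1 := by rw [hbb, if_pos hj]
    have hji := hboff j i₀ hne
    have hij := hboff i₀ j (Ne.symm hne)
    by_cases h1 : q τ (b j) = 0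
    · have := hpos _ h1 (b.ne_zero j)
      linarith
    · set w := q τ (b j) • b i₀ + (-(q τ (b i₀))) • b j with hw
      have hw1 : q τ w = 0 := by
        rw [hw, hq.map_add, hq.map_smul, hq.map_smul]; ring
      have hw2 : q w w = -(q τ (b j)) ^ 2 - (q τ (b i₀)) ^ 2 := by
        rw [← lorLin_apply hq, hw]
        simp only [map_add, map_smul, LinearMap.add_apply, LinearMap.smul_apply, smul_eq_mul,
          lorLin_apply]
        rw [hji, hij, hbi₀, hbj]
        ring
      have hw0 : w ≠ 0 := by
        intro h0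
        have h2 := congrArg (fun x => b.repr x i₀) h0
        simp only [hw, map_add, map_smul, Finsupp.add_apply, Finsupp.smul_apply,
          Basis.repr_self, smul_eq_mul, map_zero, Finsupp.zero_apply] at h2
        rw [Finsupp.single_eq_same, Finsupp.single_eq_of_ne (by
          first | exact hne | exact Ne.symm hne)] at h2
        apply h1
        linarith
      have h3 := hpos w hw1 hw0
      rw [hw2] at h3
      nlinarith [sq_nonneg (q τ (b j)), sq_nonneg (q τ (b i₀))]
  refine ⟨b, i₀, fun i j => ?_⟩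
  by_cases hij : i = j
  · subst hij
    rw [if_pos rfl, hbb]
    by_cases h1 : i = i₀
    · subst h1
      rw [if_pos hi₀, if_pos rfl]
    · rw [if_neg h1, if_neg]
      exact fun h2 => h1 (huniq i h2)
  · rw [if_neg hij, hboff i j hij]

/-- Lorentz forms on a vector space are equivalent. -/
theorem lor_equiv {q q' : V → V → ℝ} (hq : IsLorentzForm q) (hq' : IsLorentzForm q') :
    ∃ T : V ≃ₗ[ℝ] V, ∀ u v, q' (T u) (T v) = q u v := by
  obtain ⟨b, i₀, hb⟩ := exists_lor_basis hq
  obtain ⟨b', i₀', hb'⟩ := exists_lor_basis hq'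
  set e : Fin (finrank ℝ V) ≃ Fin (finrank ℝ V) := Equiv.swap i₀ i₀' with he
  refine ⟨b.equiv b' e, fun u v => ?_⟩
  have h1 : ((lorLin hq').compl₁₂ (b.equiv b' e).toLinearMap (b.equiv b' e).toLinearMap) =
      lorLin hq := by
    refine b.ext fun i => b.ext fun j => ?_
    rw [LinearMap.compl₁₂_apply]
    simp only [LinearEquiv.coe_coe, Basis.equiv_apply, lorLin_apply]
    rw [hb, hb']
    have e1 : e i = e j ↔ i = j := e.injective.eq_iff
    have e2 : e i = i₀' ↔ i = i₀ := by
      rw [← e.injective.eq_iff (a := i) (b := i₀), he, Equiv.swap_apply_left]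
    simp only [e1, e2]
  have h2 := congrArg (fun f => f u v) h1
  simpa [LinearMap.compl₁₂_apply, lorLin_apply] using h2

end Pool.H1.Lor.CT
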