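import Pool.Agent.H1.CT.Frob
import Pool.Agent.H1.CT.Alg

/-!
# Metrics of constant curvature in coordinates
-/

namespace Pool.H1.Lor.CT

open Filter Topology Set Metric
open scoped ContDiff
open Pool.MP_5bfe9a_gt

variable {V : Type*} [NormedAddCommGroup V] [NormedSpace ℝ V]

/-- A metric of constant curvature `K` with its Christoffel symbols on an open set. -/
structure CurvData (U : Set V) (G : V → V →L[ℝ] V →L[ℝ] ℝ) (Γ : V → V →L[ℝ] V →L[ℝ] V) (K : ℝ) :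
    Prop where
  isOpen : IsOpen U
  symm : ∀ z ∈ U, ∀ u v, G z u v = G z v u
  smoothG : ContDiffOn ℝ ∞ G U
  smoothΓ : ContDiffOn ℝ ∞ Γ U
  comp : ∀ z ∈ U, ∀ u v w, fderiv ℝ G z u v w = G z (Γ z u v) w + G z v (Γ z u w)
  torsion : ∀ z ∈ U, ∀ u v, Γ z u v = Γ z v u
  curv : ∀ z ∈ U, ∀ u v w, fderiv ℝ Γ z u v w - fderiv ℝ Γ z v u w + Γ z u (Γ z v w)
    - Γ z v (Γ z u w) = K • (G z v w • u - G z u w • v)

/-- A splitting `E = V ⊕ ℝ`. -/
structure Spl (V E : Type*) [NormedAddCommGroup V] [NormedSpace ℝ V]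
    [NormedAddCommGroup E] [NormedSpace ℝ E] where
  /-- inclusion -/
  i : V →L[ℝ] E
  /-- the vector `(0, 1)` -/
  j : E
  /-- projection -/
  p : E →L[ℝ] V
  /-- second coordinate -/
  r : E →L[ℝ] ℝ
  pi : ∀ v, p (i v) = v
  pj : p j = 0
  ri : ∀ v, r (i v) = 0
  rj : r j = 1
  ext : ∀ e, i (p e) + r e • j = e

variable {E : Type*} [NormedAddCommGroup E] [NormedSpace ℝ E]

theorem Spl.eq_iff (s : Spl V E) {e e' : E} (h1 : s.p e = s.p e') (h2 : s.r e = s.r e') :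
    e = e' := by rw [← s.ext e, ← s.ext e', h1, h2]

open ContinuousLinearMap in
/-- Embedding of endomorphisms. -/
noncomputable def T1 (s : Spl V E) : (V →L[ℝ] V) →L[ℝ] (E →L[ℝ] E) :=
  (compL ℝ E V E s.i).comp ((compL ℝ E V V).flip s.p)

open ContinuousLinearMap in
/-- Embedding of covectors. -/
noncomputable def T2 (s : Spl V E) : (V →L[ℝ] ℝ) →L[ℝ] (E →L[ℝ] E) :=
  ((smulRightL ℝ E E).flip s.j).comp ((compL ℝ E V ℝ).flip s.p)

open ContinuousLinearMap in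
/-- Embedding of vectors. -/
noncomputable def T3 (s : Spl V E) : V →L[ℝ] (E →L[ℝ] E) := (smulRightL ℝ E E s.r).comp s.i

theorem T1_apply (s : Spl V E) (L : V →L[ℝ] V) (e : E) : T1 s L e = s.i (L (s.p e)) := by
  simp [T1]

theorem T2_apply (s : Spl V E) (L : V →L[ℝ] ℝ) (e : E) : T2 s L e = L (s.p e) • s.j := by
  simp [T2]

theorem T3_apply (s : Spl V E) (u : V) (e : E) : T3 s u e = s.r e • s.i u := by
  simp [T3]

open ContinuousLinearMap in
/-- Postcomposition with `T1`. -/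
noncomputable def L1 (s : Spl V E) : (V →L[ℝ] V →L[ℝ] V) →L[ℝ] (V →L[ℝ] (E →L[ℝ] E)) :=
  (compL ℝ V (V →L[ℝ] V) (E →L[ℝ] E)) (T1 s)

open ContinuousLinearMap in
/-- Postcomposition with `T2`. -/
noncomputable def L2 (s : Spl V E) : (V →L[ℝ] V →L[ℝ] ℝ) →L[ℝ] (V →L[ℝ] (E →L[ℝ] E)) :=
  (compL ℝ V (V →L[ℝ] ℝ) (E →L[ℝ] E)) (T2 s)

theorem L1_apply (s : Spl V E) (L : V →L[ℝ] V →L[ℝ] V) (u : V) (e : E) :
    L1 s L u e = s.i (L u (s.p e)) := by
  rw [← T1_apply]; rfl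

theorem L2_apply (s : Spl V E) (L : V →L[ℝ] V →L[ℝ] ℝ) (u : V) (e : E) :
    L2 s L u e = L u (s.p e) • s.j := by
  rw [← T2_apply]; rfl

/-- The connection form. -/
noncomputable def conn (s : Spl V E) (G : V → V →L[ℝ] V →L[ℝ] ℝ) (Γ : V → V →L[ℝ] V →L[ℝ] V)
    (K : ℝ) (z : V) : V →L[ℝ] (E →L[ℝ] E) :=
  L1 s (Γ z) + T3 s - K • L2 s (G z)

theorem conn_apply (s : Spl V E) (G : V → V →L[ℝ] V →L[ℝ] ℝ) (Γ : V → V →L[ℝ] V →L[ℝ] V) (K : ℝ)
    (z u : V) (e : E) : conn s G Γ K z u e =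
      s.i (Γ z u (s.p e) + s.r e • u) - (K * G z u (s.p e)) • s.j := by
  simp [conn, L1_apply, L2_apply, T3_apply, smul_smul]

theorem contDiffOn_conn [FiniteDimensional ℝ V] [FiniteDimensional ℝ E] (s : Spl V E) {U : Set V}
    {G : V → V →L[ℝ] V →L[ℝ] ℝ} {Γ : V → V →L[ℝ] V →L[ℝ] V}
    (K : ℝ) (hG : ContDiffOn ℝ ∞ G U) (hΓ : ContDiffOn ℝ ∞ Γ U) :
    ContDiffOn ℝ ∞ (conn s G Γ K) U := by
  rw [contDiffOn_clm_apply]
  intro u
  rw [contDiffOn_clm_apply]
  intro e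
  simp only [conn_apply]
  have h1 : ContDiffOn ℝ ∞ (fun z => Γ z u (s.p e)) U :=
    (hΓ.clm_apply contDiffOn_const).clm_apply contDiffOn_const
  have h2 : ContDiffOn ℝ ∞ (fun z => G z u (s.p e)) U :=
    (hG.clm_apply contDiffOn_const).clm_apply contDiffOn_const
  have h3 : ContDiffOn ℝ ∞ (fun z => s.i (Γ z u (s.p e) + s.r e • u)) U :=
    s.i.contDiff.comp_contDiffOn (h1.add contDiffOn_const)
  have h4 : ContDiffOn ℝ ∞ (fun z => (K * G z u (s.p e)) • s.j) U :=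
    (contDiffOn_const.mul h2).smul contDiffOn_const
  exact h3.sub h4

/-- Derivative of an evaluation. -/
theorem hasFDerivAt_eval2 {X Y Z : Type*} [NormedAddCommGroup X] [NormedSpace ℝ X]
    [NormedAddCommGroup Y] [NormedSpace ℝ Y] [NormedAddCommGroup Z] [NormedSpace ℝ Z]
    {A : V → X →L[ℝ] Y →L[ℝ] Z} {A' : V →L[ℝ] X →L[ℝ] Y →L[ℝ] Z} {z : V}
    (h : HasFDerivAt A A' z) (x : X) (y : Y) :
    HasFDerivAt (fun z => A z x y) ((A'.flip x).flip y) z := by
  have h1 := (h.clm_apply (hasFDerivAt_const x z)).clm_apply (hasFDerivAt_const y z)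
  refine h1.congr_fderiv ?_
  ext a
  simp

variable {U : Set V} {G : V → V →L[ℝ] V →L[ℝ] ℝ} {Γ : V → V →L[ℝ] V →L[ℝ] V} {K : ℝ}

theorem CurvData.hasFDerivAt_G (h : CurvData U G Γ K) {z : V} (hz : z ∈ U) :
    HasFDerivAt G (fderiv ℝ G z) z :=
  ((h.smoothG.contDiffAt (h.isOpen.mem_nhds hz)).differentiableAt (by simp)).hasFDerivAt

theorem CurvData.hasFDerivAt_Γ (h : CurvData U G Γ K) {z : V} (hz : z ∈ U) :
    HasFDerivAt Γ (fderiv ℝ Γ z) z :=
  ((h.smoothΓ.contDiffAt (h.isOpen.mem_nhds hz)).differentiableAt (by simp)).hasFDerivAt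

/-- The connection is flat. -/
theorem CurvData.fderiv_conn [FiniteDimensional ℝ V] [FiniteDimensional ℝ E]
    (h : CurvData U G Γ K) (s : Spl V E) {z : V} (hz : z ∈ U) (a b : V) (e : E) :
    fderiv ℝ (conn s G Γ K) z a b e =
      s.i (fderiv ℝ Γ z a b (s.p e)) - (K * fderiv ℝ G z a b (s.p e)) • s.j := by
  have h0 : HasFDerivAt (conn s G Γ K) (fderiv ℝ (conn s G Γ K) z) z :=
    (((contDiffOn_conn s K h.smoothG h.smoothΓ).contDiffAt
      (h.isOpen.mem_nhds hz)).differentiableAt (by simp)).hasFDerivAt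
  have h1 := hasFDerivAt_eval2 h0 b e
  have h2 := hasFDerivAt_eval2 (h.hasFDerivAt_G hz) b (s.p e)
  have h3 := hasFDerivAt_eval2 (h.hasFDerivAt_Γ hz) b (s.p e)
  have h4 : HasFDerivAt (fun z => conn s G Γ K z b e) (s.i.comp (((fderiv ℝ Γ z).flip b).flip
      (s.p e)) - (K • ((fderiv ℝ G z).flip b).flip (s.p e)).smulRight s.j) z := by
    simp only [conn_apply]
    have e1 := s.i.hasFDerivAt.comp z (h3.add_const (s.r e • b))
    exact e1.sub ((h2.const_mul K).smul_const s.j)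
  have h5 := congrArg (fun L => L a) (h1.unique h4)
  simpa using h5

theorem CurvData.flat [FiniteDimensional ℝ V] [FiniteDimensional ℝ E]
    (h : CurvData U G Γ K) (s : Spl V E) {z : V} (hz : z ∈ U) (u v : V) :
    fderiv ℝ (conn s G Γ K) z u v - fderiv ℝ (conn s G Γ K) z v u +
      (conn s G Γ K z u * conn s G Γ K z v - conn s G Γ K z v * conn s G Γ K z u) = 0 := by
  have hm : ∀ (a b : E →L[ℝ] E) (e : E), (a * b) e = a (b e) := fun _ _ _ => rfl
  refine ContinuousLinearMap.ext fun e => ?_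
  have hc := h.curv z hz u v (s.p e)
  have hcomp1 := h.comp z hz u v (s.p e)
  have hcomp2 := h.comp z hz v u (s.p e)
  have ht := h.torsion z hz u v
  have hs := h.symm z hz
  simp only [add_apply, sub_apply, hm, h.fderiv_conn s hz, conn_apply, zero_apply]
  apply s.eq_iff
  · simp only [map_add, map_sub, map_smul, s.pi, s.pj, s.ri, s.rj, map_zero, smul_zero, sub_zero,
      zero_sub, zero_add, smul_eq_mul, mul_one, zero_smul]
    rw [ht]
    have e1 : K • (G z v (s.p e) • u - G z u (s.p e) • v) =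
        (K * G z v (s.p e)) • u - (K * G z u (s.p e)) • v := by
      rw [smul_sub, smul_smul, smul_smul]
    rw [e1] at hc
    have e2 : fderiv ℝ Γ z u v (s.p e) = fderiv ℝ Γ z v u (s.p e) - Γ z u (Γ z v (s.p e))
      + Γ z v (Γ z u (s.p e)) + ((K * G z v (s.p e)) • u - (K * G z u (s.p e)) • v) := by
      rw [← hc]; abel
    rw [e2]
    module
  · simp only [map_add, map_sub, map_smul, s.pi, s.pj, s.ri, s.rj, map_zero, smul_zero, sub_zero,
      zero_sub, smul_eq_mul, mul_one, zero_smul]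
    rw [hcomp1, hcomp2, ht, hs v u, hs v (Γ z u (s.p e)), hs u (Γ z v (s.p e))]
    ring

end Pool.H1.Lor.CT
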