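import Pool.Agent.H1.CT.Man
import Pool.Agent.H1.CK.Final

/-!
# Compact Lorentzian manifolds conformal to constant sectional curvature are complete
-/

namespace Pool.H1.Lor.CT

open Filter Topology Set Metric Module
open scoped Manifold ContDiff
open Pool.MP_5bfe9a_gt

variable {V : Type*} [NormedAddCommGroup V] [NormedSpace ℝ V]
  {M : Type*} [TopologicalSpace M] [ChartedSpace V M] [IsManifold 𝓘(ℝ, V) ∞ M]

theorem isLorentzMetric_smul {g : TensorField V M} {f : M → ℝ} (hg : IsLorentzMetric g)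
    (hf : ContMDiff 𝓘(ℝ, V) 𝓘(ℝ, ℝ) ∞ f) :
    IsLorentzMetric (fun x u v => Real.exp (2 * f x) * g x u v) where
  lorentz := fun x => isLorentzForm_smul (hg.lorentz x) (Real.exp_pos _)
  smooth := by
    intro p u v
    have h1 : ContMDiffOn 𝓘(ℝ, V) 𝓘(ℝ, ℝ) ∞ (f ∘ (extChartAt 𝓘(ℝ, V) p).symm)
        (extChartAt 𝓘(ℝ, V) p).target :=
      hf.comp_contMDiffOn (contMDiffOn_extChartAt_symm p)
    have h2 : ContDiffOn ℝ ∞ (f ∘ (extChartAt 𝓘(ℝ, V) p).symm)
        (extChartAt 𝓘(ℝ, V) p).target := h1.contDiffOn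
    exact (Real.contDiff_exp.comp_contDiffOn (contDiffOn_const.mul h2)).mul (hg.smooth p u v)

variable [FiniteDimensional ℝ V] [T2Space M] [CompactSpace M]

theorem conformal_complete_sectional (hdim : 2 ≤ finrank ℝ V) (g : TensorField V M) (f : M → ℝ)
    (K : ℝ) (hg : IsLorentzMetric g) (hf : ContMDiff 𝓘(ℝ, V) 𝓘(ℝ, ℝ) ∞ f)
    (hK : HasSectionalCurvature (fun x u v => Real.exp (2 * f x) * g x u v) K) :
    GeodesicallyComplete g := by
  rcases isEmpty_or_nonempty M with h | h
  · intro s _ _ _ γ _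
    exact (h.false (γ 0)).elim
  · exact conformal_complete' g f K hg hf
      (hasConstantCurvature (isLorentzMetric_smul hg hf) hdim hK)

end Pool.H1.Lor.CT
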