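import Mathlib

/-!
# The Frobenius theorem for flat linear connections

`A` is a smooth one-form near `z₀` with values in a Banach algebra, satisfying the structure
equation `dA + A ∧ A = 0`. Then `dP = - A P` has a solution with `P z₀ = 1`.
-/

namespace Pool.H1.Lor.CT

open Filter Topology Set Metric
open scoped ContDiff NNReal

variable {V : Type*} [NormedAddCommGroup V] [NormedSpace ℝ V]
  {𝔸 : Type*} [NormedRing 𝔸] [NormedAlgebra ℝ 𝔸] [CompleteSpace 𝔸]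

omit [CompleteSpace 𝔸] in
theorem within_right {f : ℝ → 𝔸} {f' : 𝔸} {t : ℝ} (ht : t ∈ Ico (0 : ℝ) 1)
    (h : HasDerivWithinAt f f' (Icc 0 1) t) : HasDerivWithinAt f f' (Ici t) t :=
  h.mono_of_mem_nhdsWithin (Icc_mem_nhdsGE_of_mem ht)

/-- The radial equation. -/
theorem exists_radial {A : V → V →L[ℝ] 𝔸} {δ C : ℝ} (hA : ContinuousOn A (ball 0 δ))
    (hC : ∀ z ∈ ball (0 : V) δ, ‖A z‖ ≤ C) (hC0 : 0 ≤ C)
    (hδ : C * δ * (‖(1 : 𝔸)‖ + 1) ≤ 1) {z : V} (hz : z ∈ ball (0 : V) δ) :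
    ∃ Y : ℝ → 𝔸, Y 0 = 1 ∧ ∀ t ∈ Icc (0 : ℝ) 1,
      HasDerivWithinAt Y (-(A (t • z) z * Y t)) (Icc 0 1) t := by
  have hz' : ‖z‖ < δ := by simpa using hz
  have hδ0 : 0 < δ := (norm_nonneg z).trans_lt hz'
  have hmem : ∀ t ∈ Icc (0 : ℝ) 1, t • z ∈ ball (0 : V) δ := by
    intro t ht
    rw [mem_ball_zero_iff, norm_smul, Real.norm_eq_abs, abs_of_nonneg ht.1]
    exact lt_of_le_of_lt (mul_le_of_le_one_left (norm_nonneg z) ht.2) hz'
  have hb : ∀ t ∈ Icc (0 : ℝ) 1, ‖A (t • z) z‖ ≤ C * δ := by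
    intro t ht
    calc ‖A (t • z) z‖ ≤ ‖A (t • z)‖ * ‖z‖ := (A (t • z)).le_opNorm z
      _ ≤ C * δ := by
        have := hC _ (hmem t ht)
        gcongr
  have hCδ : C * δ ≤ 1 := by
    refine le_trans ?_ hδ
    have : 0 ≤ ‖(1 : 𝔸)‖ := norm_nonneg _
    have h2 : 0 ≤ C * δ := by positivity
    nlinarith
  have hpl : IsPicardLindelof (fun t Y => -(A (t • z) z * Y))
      (⟨0, by simp⟩ : Icc (0 : ℝ) 1) (1 : 𝔸) 1 0 1 1 := by
    refine ⟨?_, ?_, ?_, ?_⟩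
    · intro t ht
      refine LipschitzWith.lipschitzOnWith (LipschitzWith.of_dist_le_mul fun a b => ?_)
      rw [dist_eq_norm, dist_eq_norm]
      have h1 : -(A (t • z) z * a) - -(A (t • z) z * b) = -(A (t • z) z * (a - b)) := by
        rw [mul_sub]; abel
      rw [h1, norm_neg]
      calc ‖A (t • z) z * (a - b)‖ ≤ ‖A (t • z) z‖ * ‖a - b‖ := norm_mul_le _ _
        _ ≤ ((1 : ℝ≥0) : ℝ) * ‖a - b‖ := by
          have := (hb t ht).trans hCδ
          simp only [NNReal.coe_one]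
          gcongr
    · intro Y _
      have h1 : ContinuousOn (fun t : ℝ => A (t • z)) (Icc 0 1) :=
        hA.comp (by fun_prop) hmem
      exact ((h1.clm_apply continuousOn_const).mul continuousOn_const).neg
    · intro t ht Y hY
      rw [mem_closedBall, dist_eq_norm] at hY
      have h1 : ‖Y‖ ≤ ‖(1 : 𝔸)‖ + 1 := by
        calc ‖Y‖ = ‖1 + (Y - 1)‖ := by congr 1; abel
          _ ≤ ‖(1 : 𝔸)‖ + ‖Y - 1‖ := norm_add_le _ _
          _ ≤ ‖(1 : 𝔸)‖ + 1 := by simpa using hY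
      rw [norm_neg]
      calc ‖A (t • z) z * Y‖ ≤ ‖A (t • z) z‖ * ‖Y‖ := norm_mul_le _ _
        _ ≤ C * δ * (‖(1 : 𝔸)‖ + 1) := by
          have := hb t ht
          gcongr
        _ ≤ ((1 : ℝ≥0) : ℝ) := by simpa using hδ
    · simp
  obtain ⟨α, h1, h2⟩ := hpl.exists_eq_forall_mem_Icc_hasDerivWithinAt₀
  exact ⟨α, h1, h2⟩

omit [CompleteSpace 𝔸] in
/-- Bound for solutions. -/
theorem radial_bound {Y : ℝ → 𝔸} {m : ℝ → 𝔸} (h0 : Y 0 = 1) (hm : ∀ t ∈ Icc (0 : ℝ) 1, ‖m t‖ ≤ 1)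
    (hY : ∀ t ∈ Icc (0 : ℝ) 1, HasDerivWithinAt Y (-(m t * Y t)) (Icc 0 1) t) :
    ∀ t ∈ Icc (0 : ℝ) 1, ‖Y t‖ ≤ ‖(1 : 𝔸)‖ * Real.exp 1 := by
  intro t ht
  have h := norm_le_gronwallBound_of_norm_deriv_right_le (f := Y) (f' := fun t => -(m t * Y t))
    (δ := ‖(1 : 𝔸)‖) (K := 1) (ε := 0) (a := 0) (b := 1)
    (fun s hs => (hY s hs).continuousWithinAt)
    (fun s hs => within_right hs (hY s ⟨hs.1, hs.2.le⟩)) (by rw [h0])
    (fun s hs => by
      rw [norm_neg, one_mul, add_zero]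
      calc ‖m s * Y s‖ ≤ ‖m s‖ * ‖Y s‖ := norm_mul_le _ _
        _ ≤ 1 * ‖Y s‖ := by
          have := hm s ⟨hs.1, hs.2.le⟩
          gcongr
        _ = ‖Y s‖ := one_mul _) t ht
  rw [gronwallBound_ε0] at h
  refine h.trans ?_
  have : (1 : ℝ) * (t - 0) ≤ 1 := by linarith [ht.2]
  gcongr

omit [CompleteSpace 𝔸] in
/-- Comparison. -/
theorem radial_compare {Y Z Z' : ℝ → 𝔸} {m : ℝ → 𝔸} {ε : ℝ} (h0 : Y 0 = Z 0)
    (hm : ∀ t ∈ Icc (0 : ℝ) 1, ‖m t‖ ≤ 1)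
    (hY : ∀ t ∈ Icc (0 : ℝ) 1, HasDerivWithinAt Y (-(m t * Y t)) (Icc 0 1) t)
    (hZ : ∀ t ∈ Icc (0 : ℝ) 1, HasDerivWithinAt Z (Z' t) (Icc 0 1) t)
    (hε : ∀ t ∈ Icc (0 : ℝ) 1, ‖Z' t + m t * Z t‖ ≤ ε) :
    ‖Y 1 - Z 1‖ ≤ ε * (Real.exp 1 - 1) := by
  have h := norm_le_gronwallBound_of_norm_deriv_right_le (f := fun t => Y t - Z t)
    (f' := fun t => -(m t * Y t) - Z' t) (δ := 0) (K := 1) (ε := ε) (a := 0) (b := 1)
    (fun s hs => ((hY s hs).sub (hZ s hs)).continuousWithinAt)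
    (fun s hs => within_right hs ((hY s ⟨hs.1, hs.2.le⟩).sub (hZ s ⟨hs.1, hs.2.le⟩)))
    (by simp [h0])
    (fun s hs => by
      have e1 : -(m s * Y s) - Z' s = -(m s * (Y s - Z s)) - (Z' s + m s * Z s) := by
        rw [mul_sub]; abel
      rw [e1]
      have hs' : s ∈ Icc (0 : ℝ) 1 := ⟨hs.1, hs.2.le⟩
      calc ‖-(m s * (Y s - Z s)) - (Z' s + m s * Z s)‖
          ≤ ‖-(m s * (Y s - Z s))‖ + ‖Z' s + m s * Z s‖ := norm_sub_le _ _
        _ ≤ ‖m s‖ * ‖Y s - Z s‖ + ε := by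
          rw [norm_neg]
          exact add_le_add (norm_mul_le _ _) (hε s hs')
        _ ≤ 1 * ‖Y s - Z s‖ + ε := by
          have := hm s hs'
          gcongr) 1 (by simp)
  rw [gronwallBound_of_K_ne_0 one_ne_zero] at h
  simpa using h

omit [CompleteSpace 𝔸] in
theorem alg_identity (a b c d E Y : 𝔸) (t : ℝ) (h : c - d + (b * a - a * b) = 0) :
    -(a * Y) - ((t • (d * Y + b * -(a * Y))) + (1 : ℝ) • (b * Y)) +
      (a + b + t • c + E) * (Y - t • (b * Y)) =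
    (E - t • ((b + t • c + E) * b)) * Y := by
  have hd : d = c + (b * a - a * b) := by
    have := sub_eq_zero.1 (show (c + (b * a - a * b)) - d = 0 by rw [← h]; abel)
    exact this.symm
  subst hd
  simp only [add_mul, sub_mul, mul_sub, smul_add, smul_sub, mul_smul_comm, smul_mul_assoc,
    mul_assoc, mul_neg, smul_neg, one_smul]
  abel

omit [CompleteSpace 𝔸] in
/-- The main estimate. -/
theorem frob_est {A : V → V →L[ℝ] 𝔸} {A' : V → V →L[ℝ] V →L[ℝ] 𝔸} {δ C : ℝ} (hC0 : 0 ≤ C)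
    (hδ1 : δ ≤ 1 / 2) (hA : ∀ z ∈ ball (0 : V) δ, HasFDerivAt A (A' z) z)
    (hC : ∀ z ∈ ball (0 : V) δ, ‖A z‖ ≤ C) (hC' : ∀ z ∈ ball (0 : V) δ, ‖A' z‖ ≤ C)
    (hT : ∀ z ∈ ball (0 : V) δ, ∀ k, z + k ∈ ball (0 : V) δ →
      ‖A (z + k) - A z - A' z k‖ ≤ C * ‖k‖ ^ 2)
    (hδ : C * δ * (‖(1 : 𝔸)‖ + 1) ≤ 1)
    (hflat : ∀ z ∈ ball (0 : V) δ, ∀ u v,
      A' z u v - A' z v u + (A z u * A z v - A z v * A z u) = 0)
    {Y : V → ℝ → 𝔸} (hY0 : ∀ z ∈ ball (0 : V) δ, Y z 0 = 1)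
    (hY : ∀ z ∈ ball (0 : V) δ, ∀ t ∈ Icc (0 : ℝ) 1,
      HasDerivWithinAt (Y z) (-(A (t • z) z * Y z t)) (Icc 0 1) t) :
    ∀ z ∈ ball (0 : V) δ, ∀ k, z + k ∈ ball (0 : V) δ →
      ‖Y (z + k) 1 - Y z 1 + A z k * Y z 1‖ ≤
        ((3 * C + 5 * C ^ 2) * (‖(1 : 𝔸)‖ * Real.exp 1)) * (Real.exp 1 - 1) * ‖k‖ ^ 2 := by
  intro z hz k hzk
  have hmem : ∀ z ∈ ball (0 : V) δ, ∀ t ∈ Icc (0 : ℝ) 1, t • z ∈ ball (0 : V) δ := by
    intro z hz t ht
    rw [mem_ball_zero_iff] at hz ⊢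
    rw [norm_smul, Real.norm_eq_abs, abs_of_nonneg ht.1]
    exact lt_of_le_of_lt (mul_le_of_le_one_left (norm_nonneg z) ht.2) hz
  have hz' : ‖z‖ < δ := by simpa using hz
  have hzk' : ‖z + k‖ < δ := by simpa using hzk
  have hδ0 : 0 < δ := (norm_nonneg z).trans_lt hz'
  have hz1 : ‖z‖ ≤ 1 := by linarith
  have hk1 : ‖k‖ ≤ 1 := by
    calc ‖k‖ = ‖(z + k) - z‖ := by congr 1; abel
      _ ≤ ‖z + k‖ + ‖z‖ := norm_sub_le _ _
      _ ≤ 1 := by linarith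
  have hCδ : C * δ ≤ 1 := by
    refine le_trans ?_ hδ
    have : 0 ≤ ‖(1 : 𝔸)‖ := norm_nonneg _
    have h2 : 0 ≤ C * δ := by positivity
    nlinarith
  have hm : ∀ z ∈ ball (0 : V) δ, ∀ t ∈ Icc (0 : ℝ) 1, ‖A (t • z) z‖ ≤ 1 := by
    intro z hz t ht
    have hz' : ‖z‖ < δ := by simpa using hz
    calc ‖A (t • z) z‖ ≤ ‖A (t • z)‖ * ‖z‖ := (A (t • z)).le_opNorm z
      _ ≤ C * δ := by
        have := hC _ (hmem z hz t ht)
        gcongr
      _ ≤ 1 := hCδ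
  set N : ℝ := ‖(1 : 𝔸)‖ * Real.exp 1 with hN
  have hN0 : 0 ≤ N := by positivity
  have hYN : ∀ t ∈ Icc (0 : ℝ) 1, ‖Y z t‖ ≤ N := radial_bound (m := fun t => A (t • z) z)
    (hY0 z hz) (hm z hz) (hY z hz)
  -- the comparison function
  have hZ : ∀ t ∈ Icc (0 : ℝ) 1, HasDerivWithinAt (fun t => Y z t - t • (A (t • z) k * Y z t))
      (-(A (t • z) z * Y z t) - (t • (A' (t • z) z k * Y z t + A (t • z) k *
        -(A (t • z) z * Y z t)) + (1 : ℝ) • (A (t • z) k * Y z t))) (Icc 0 1) t := by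
    intro t ht
    have e1 : HasDerivAt (fun t : ℝ => A (t • z)) (A' (t • z) z) t := by
      have e2 : HasDerivAt (fun t : ℝ => t • z) z t := by
        simpa using (hasDerivAt_id t).smul_const z
      exact (hA _ (hmem z hz t ht)).comp_hasDerivAt t e2
    have e3 : HasDerivAt (fun t : ℝ => A (t • z) k) (A' (t • z) z k) t := by
      simpa using e1.clm_apply (hasDerivAt_const t k)
    exact (hY z hz t ht).sub ((hasDerivWithinAt_id t _).smul
      (e3.hasDerivWithinAt.mul (hY z hz t ht)))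
  have hmain := radial_compare (Y := Y (z + k)) (Z := fun t => Y z t - t • (A (t • z) k * Y z t))
    (m := fun t => A (t • (z + k)) (z + k)) (ε := (3 * C + 5 * C ^ 2) * ‖k‖ ^ 2 * N)
    (by simp [hY0 z hz, hY0 _ hzk]) (hm _ hzk) (hY _ hzk) hZ ?_
  · have e1 : Y (z + k) 1 - (Y z 1 - (1 : ℝ) • (A ((1 : ℝ) • z) k * Y z 1)) =
        Y (z + k) 1 - Y z 1 + A z k * Y z 1 := by
      rw [one_smul, one_smul]; abel
    beta_reduce at hmain
    rw [e1] at hmain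
    refine hmain.trans (le_of_eq ?_)
    ring
  · intro t ht
    set a := A (t • z) z with ha
    set b := A (t • z) k with hb
    set c := A' (t • z) k z with hc
    set d := A' (t • z) z k with hd
    set E := A (t • (z + k)) (z + k) - a - b - t • c with hE
    have hM : A (t • (z + k)) (z + k) = a + b + t • c + E := by rw [hE]; abel
    have hfl : c - d + (b * a - a * b) = 0 := hflat _ (hmem z hz t ht) k z
    rw [hM, alg_identity a b c d E (Y z t) t hfl]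
    have hbn : ‖b‖ ≤ C * ‖k‖ := by
      have := hC _ (hmem z hz t ht)
      calc ‖b‖ ≤ ‖A (t • z)‖ * ‖k‖ := (A (t • z)).le_opNorm k
        _ ≤ C * ‖k‖ := by gcongr
    have hcn : ‖c‖ ≤ C * ‖k‖ := by
      have := hC' _ (hmem z hz t ht)
      calc ‖c‖ ≤ ‖A' (t • z) k‖ * ‖z‖ := (A' (t • z) k).le_opNorm z
        _ ≤ (‖A' (t • z)‖ * ‖k‖) * ‖z‖ := by
          gcongr
          exact (A' (t • z)).le_opNorm k
        _ ≤ (C * ‖k‖) * 1 := by gcongr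
        _ = C * ‖k‖ := mul_one _
    have htk : ‖t • k‖ ≤ ‖k‖ := by
      rw [norm_smul, Real.norm_eq_abs, abs_of_nonneg ht.1]
      exact mul_le_of_le_one_left (norm_nonneg k) ht.2
    have hT1 : ‖A (t • z + t • k) - A (t • z) - A' (t • z) (t • k)‖ ≤ C * ‖k‖ ^ 2 := by
      refine (hT _ (hmem z hz t ht) (t • k) ?_).trans ?_
      · rw [← smul_add]; exact hmem _ hzk t ht
      · gcongr
    have hEn : ‖E‖ ≤ 3 * C * ‖k‖ ^ 2 := by
      have e1 : E = (A (t • z + t • k) - A (t • z) - A' (t • z) (t • k)) z +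
          ((A (t • z + t • k) - A (t • z) - A' (t • z) (t • k)) k + A' (t • z) (t • k) k) := by
        rw [hE, ha, hb, hc, smul_add]
        simp only [sub_apply, map_add, map_smul, smul_apply]
        abel
      rw [e1]
      have e2 : ‖(A (t • z + t • k) - A (t • z) - A' (t • z) (t • k)) z‖ ≤ C * ‖k‖ ^ 2 * 1 :=
        (ContinuousLinearMap.le_opNorm _ _).trans (by gcongr)
      have e3 : ‖(A (t • z + t • k) - A (t • z) - A' (t • z) (t • k)) k‖ ≤ C * ‖k‖ ^ 2 * 1 :=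
        (ContinuousLinearMap.le_opNorm _ _).trans (by gcongr)
      have e4 : ‖A' (t • z) (t • k) k‖ ≤ (C * ‖k‖) * ‖k‖ := by
        have := hC' _ (hmem z hz t ht)
        calc ‖A' (t • z) (t • k) k‖ ≤ ‖A' (t • z) (t • k)‖ * ‖k‖ :=
              ContinuousLinearMap.le_opNorm _ _
          _ ≤ (‖A' (t • z)‖ * ‖t • k‖) * ‖k‖ := by
            gcongr
            exact (A' (t • z)).le_opNorm _
          _ ≤ (C * ‖k‖) * ‖k‖ := by gcongr
      calc _ ≤ C * ‖k‖ ^ 2 * 1 + (C * ‖k‖ ^ 2 * 1 + (C * ‖k‖) * ‖k‖) :=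
            (norm_add_le _ _).trans (add_le_add e2 ((norm_add_le _ _).trans (add_le_add e3 e4)))
        _ = 3 * C * ‖k‖ ^ 2 := by ring
    have htn : ∀ x : 𝔸, ‖t • x‖ ≤ ‖x‖ := fun x => by
      rw [norm_smul, Real.norm_eq_abs, abs_of_nonneg ht.1]
      exact mul_le_of_le_one_left (norm_nonneg x) ht.2
    have hsum : ‖b + t • c + E‖ ≤ 5 * C * ‖k‖ := by
      calc ‖b + t • c + E‖ ≤ ‖b‖ + ‖t • c‖ + ‖E‖ :=
            (norm_add_le _ _).trans (add_le_add (norm_add_le _ _) le_rfl)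
        _ ≤ C * ‖k‖ + C * ‖k‖ + 3 * C * ‖k‖ ^ 2 := by
          have := (htn c).trans hcn
          gcongr
        _ ≤ C * ‖k‖ + C * ‖k‖ + 3 * C * (‖k‖ * 1) := by
          rw [pow_two]; gcongr
        _ = 5 * C * ‖k‖ := by ring
    calc ‖(E - t • ((b + t • c + E) * b)) * Y z t‖
        ≤ ‖E - t • ((b + t • c + E) * b)‖ * ‖Y z t‖ := norm_mul_le _ _
      _ ≤ (3 * C * ‖k‖ ^ 2 + (5 * C * ‖k‖) * (C * ‖k‖)) * N := by
        have h1 : ‖t • ((b + t • c + E) * b)‖ ≤ (5 * C * ‖k‖) * (C * ‖k‖) := by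
          refine (htn _).trans ((norm_mul_le _ _).trans ?_)
          gcongr
        have h2 := hYN t ht
        have h3 : ‖E - t • ((b + t • c + E) * b)‖ ≤
            3 * C * ‖k‖ ^ 2 + (5 * C * ‖k‖) * (C * ‖k‖) :=
          (norm_sub_le _ _).trans (add_le_add hEn h1)
        gcongr
      _ = (3 * C + 5 * C ^ 2) * ‖k‖ ^ 2 * N := by ring

theorem frob_local {A : V → V →L[ℝ] 𝔸} {A' : V → V →L[ℝ] V →L[ℝ] 𝔸} {δ C : ℝ} (hC0 : 0 ≤ C)
    (hδ0 : 0 < δ) (hδ1 : δ ≤ 1 / 2) (hA : ∀ z ∈ ball (0 : V) δ, HasFDerivAt A (A' z) z)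
    (hC : ∀ z ∈ ball (0 : V) δ, ‖A z‖ ≤ C) (hC' : ∀ z ∈ ball (0 : V) δ, ‖A' z‖ ≤ C)
    (hT : ∀ z ∈ ball (0 : V) δ, ∀ k, z + k ∈ ball (0 : V) δ →
      ‖A (z + k) - A z - A' z k‖ ≤ C * ‖k‖ ^ 2)
    (hδ : C * δ * (‖(1 : 𝔸)‖ + 1) ≤ 1)
    (hflat : ∀ z ∈ ball (0 : V) δ, ∀ u v,
      A' z u v - A' z v u + (A z u * A z v - A z v * A z u) = 0) :
    ∃ P : V → 𝔸, P 0 = 1 ∧ ∀ z ∈ ball (0 : V) δ,
      HasFDerivAt P (-(((ContinuousLinearMap.mul ℝ 𝔸).flip (P z)).comp (A z))) z := by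
  have hAc : ContinuousOn A (ball 0 δ) := fun z hz => (hA z hz).continuousAt.continuousWithinAt
  choose! Y hY0 hY using fun z (hz : z ∈ ball (0 : V) δ) => exists_radial hAc hC hC0 hδ hz
  have hest := frob_est hC0 hδ1 hA hC hC' hT hδ hflat hY0 hY
  refine ⟨fun z => Y z 1, ?_, fun z hz => ?_⟩
  · have h0 : (0 : V) ∈ ball (0 : V) δ := mem_ball_self hδ0
    have h1 := radial_compare (Y := Y 0) (Z := fun _ => 1) (Z' := fun _ => 0)
      (m := fun _ => (0 : 𝔸)) (ε := 0) (hY0 0 h0) (by simp) (fun t ht => by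
        have := hY 0 h0 t ht
        simpa using this) (fun t _ => hasDerivWithinAt_const _ _ _) (by simp)
    rw [zero_mul] at h1
    exact sub_eq_zero.1 (norm_le_zero_iff.1 h1)
  · rw [hasFDerivAt_iff_isLittleO_nhds_zero]
    set C2 := ((3 * C + 5 * C ^ 2) * (‖(1 : 𝔸)‖ * Real.exp 1)) * (Real.exp 1 - 1)
    have hbig : (fun k => Y (z + k) 1 - Y z 1 -
        (-(((ContinuousLinearMap.mul ℝ 𝔸).flip (Y z 1)).comp (A z))) k) =O[𝓝 0]
        fun k : V => ‖k‖ ^ 2 := by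
      refine Asymptotics.IsBigO.of_bound C2 ?_
      have hev : ∀ᶠ k : V in 𝓝 0, z + k ∈ ball (0 : V) δ := by
        have hc : Continuous fun k : V => z + k := by fun_prop
        have h1 : Tendsto (fun k : V => z + k) (𝓝 0) (𝓝 z) := by
          have := hc.tendsto 0
          simpa using this
        exact h1.eventually (isOpen_ball.mem_nhds hz)
      filter_upwards [hev] with k hk
      have h1 := hest z hz k hk
      have e1 : Y (z + k) 1 - Y z 1 -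
        (-(((ContinuousLinearMap.mul ℝ 𝔸).flip (Y z 1)).comp (A z))) k =
          Y (z + k) 1 - Y z 1 + A z k * Y z 1 := by simp
      rw [e1]
      simpa using h1
    refine hbig.trans_isLittleO ?_
    exact Asymptotics.isLittleO_norm_pow_id one_lt_two

/-- The Frobenius theorem for a flat linear connection. -/
theorem frobenius {A : V → V →L[ℝ] 𝔸} {z₀ : V} {U : Set V} (hU : IsOpen U) (hz₀ : z₀ ∈ U)
    (hA : ContDiffOn ℝ ∞ A U)
    (hflat : ∀ z ∈ U, ∀ u v,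
      fderiv ℝ A z u v - fderiv ℝ A z v u + (A z u * A z v - A z v * A z u) = 0) :
    ∃ P : V → 𝔸, ∃ δ > 0, ball z₀ δ ⊆ U ∧ P z₀ = 1 ∧ ContDiffOn ℝ ∞ P (ball z₀ δ) ∧
      ∀ z ∈ ball z₀ δ,
      HasFDerivAt P (-(((ContinuousLinearMap.mul ℝ 𝔸).flip (P z)).comp (A z))) z := by
  have hAat : ∀ z ∈ U, ContDiffAt ℝ ∞ A z := fun z hz => hA.contDiffAt (hU.mem_nhds hz)
  have hA' : ∀ z ∈ U, HasFDerivAt A (fderiv ℝ A z) z := fun z hz =>
    ((hAat z hz).differentiableAt (by simp)).hasFDerivAt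
  have hA'at : ContDiffAt ℝ 1 (fderiv ℝ A) z₀ :=
    (hAat z₀ hz₀).fderiv_right (m := 1) (by norm_cast)
  obtain ⟨L, t, ht, hL⟩ := hA'at.exists_lipschitzOnWith
  set C : ℝ := max (max (‖A z₀‖ + 1) (‖fderiv ℝ A z₀‖ + 1)) L with hCdef
  have hC0 : 0 ≤ C := (by positivity : (0 : ℝ) ≤ ‖A z₀‖ + 1).trans
    ((le_max_left _ _).trans (le_max_left _ _))
  have e1 : ∀ᶠ z in 𝓝 z₀, ‖A z‖ < ‖A z₀‖ + 1 :=
    (hAat z₀ hz₀).continuousAt.norm.eventually (gt_mem_nhds (lt_add_one _))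
  have e2 : ∀ᶠ z in 𝓝 z₀, ‖fderiv ℝ A z‖ < ‖fderiv ℝ A z₀‖ + 1 := by
    have hc : ContinuousAt (fderiv ℝ A) z₀ := hA'at.continuousAt
    have hn : Continuous (fun L : V →L[ℝ] V →L[ℝ] 𝔸 => ‖L‖) :=
      continuous_norm (E := V →L[ℝ] V →L[ℝ] 𝔸)
    have hn2 : ContinuousAt (fun z => ‖fderiv ℝ A z‖) z₀ :=
      ContinuousAt.comp (g := fun L : V →L[ℝ] V →L[ℝ] 𝔸 => ‖L‖) (hn.continuousAt) hc
    exact hn2.eventually (gt_mem_nhds (lt_add_one _))
  obtain ⟨δ₁, hδ₁, hball⟩ := Metric.eventually_nhds_iff_ball.1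
    (e1.and (e2.and ((show ∀ᶠ z in 𝓝 z₀, z ∈ U from hU.mem_nhds hz₀).and
      (show ∀ᶠ z in 𝓝 z₀, z ∈ t from ht))))
  set D : ℝ := C * (‖(1 : 𝔸)‖ + 1) + 1 with hD
  have hD0 : 0 < D := by positivity
  set δ : ℝ := min δ₁ (min (1 / 2) (1 / D)) with hδdef
  have hδ0 : 0 < δ := by positivity
  have hδa : δ ≤ δ₁ := min_le_left _ _
  have hδb : δ ≤ 1 / 2 := (min_le_right _ _).trans (min_le_left _ _)
  have hδc : δ ≤ 1 / D := (min_le_right _ _).trans (min_le_right _ _)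
  have hsh : ∀ z ∈ ball (0 : V) δ, z₀ + z ∈ ball z₀ δ₁ := by
    intro z hz
    rw [mem_ball_zero_iff] at hz
    rw [mem_ball, dist_eq_norm, add_sub_cancel_left]
    linarith
  have hflat' : ∀ z ∈ ball (0 : V) δ, ∀ u v,
      fderiv ℝ A (z₀ + z) u v - fderiv ℝ A (z₀ + z) v u +
      (A (z₀ + z) u * A (z₀ + z) v - A (z₀ + z) v * A (z₀ + z) u) = 0 := fun z hz u v =>
    hflat _ (hball _ (hsh z hz)).2.2.1 u v
  have hTay : ∀ z ∈ ball (0 : V) δ, ∀ k, z + k ∈ ball (0 : V) δ →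
      ‖A (z₀ + (z + k)) - A (z₀ + z) - fderiv ℝ A (z₀ + z) k‖ ≤ C * ‖k‖ ^ 2 := by
    intro z hz k hk
    have hsub : segment ℝ (z₀ + z) (z₀ + (z + k)) ⊆ ball z₀ δ₁ :=
      (convex_ball z₀ δ₁).segment_subset (hsh z hz) (hsh _ hk)
    have h1 := (convex_segment (z₀ + z) (z₀ + (z + k))).norm_image_sub_le_of_norm_hasFDerivWithin_le'
      (f := A) (f' := fderiv ℝ A) (φ := fderiv ℝ A (z₀ + z)) (C := C * ‖k‖)
      (fun x hx => (hA' x (hball x (hsub hx)).2.2.1).hasFDerivWithinAt) ?_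
      (left_mem_segment ℝ _ _) (right_mem_segment ℝ _ _)
    · have e3 : z₀ + (z + k) - (z₀ + z) = k := by abel
      rw [e3] at h1
      refine h1.trans (le_of_eq ?_)
      ring
    · intro x hx
      have h2 := hL.dist_le_mul x (hball x (hsub hx)).2.2.2 (z₀ + z)
        (hball _ (hsh z hz)).2.2.2
      rw [dist_eq_norm, dist_eq_norm] at h2
      have h3 := norm_sub_le_of_mem_segment hx
      have e3 : z₀ + (z + k) - (z₀ + z) = k := by abel
      rw [e3] at h3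
      have hLC : (L : ℝ) ≤ C := le_max_right _ _
      exact h2.trans (by gcongr)
  obtain ⟨P, hP0, hP⟩ := frob_local (A := fun z => A (z₀ + z))
    (A' := fun z => fderiv ℝ A (z₀ + z)) hC0 hδ0 hδb
    (fun z hz => (hasFDerivAt_comp_add_left z₀).2 (hA' _ (hball _ (hsh z hz)).2.2.1))
    (fun z hz => (hball _ (hsh z hz)).1.le.trans
      ((le_max_left _ _).trans (le_max_left _ _)))
    (fun z hz => (hball _ (hsh z hz)).2.1.le.trans
      ((le_max_right _ _).trans (le_max_left _ _))) hTay (by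
      calc C * δ * (‖(1 : 𝔸)‖ + 1) = (C * (‖(1 : 𝔸)‖ + 1)) * δ := by ring
        _ ≤ D * (1 / D) := by
          have : C * (‖(1 : 𝔸)‖ + 1) ≤ D := by rw [hD]; linarith
          gcongr
        _ = 1 := by field_simp) hflat'
  have hP' : ∀ z ∈ ball z₀ δ, HasFDerivAt (fun z => P (z - z₀))
      (-(((ContinuousLinearMap.mul ℝ 𝔸).flip (P (z - z₀))).comp (A z))) z := by
    intro z hz
    have h1 : z - z₀ ∈ ball (0 : V) δ := by
      rw [mem_ball_zero_iff]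
      rwa [mem_ball, dist_eq_norm] at hz
    have h2 := hP _ h1
    rw [add_sub_cancel] at h2
    exact (hasFDerivAt_comp_sub z₀).2 h2
  have hsubU : ball z₀ δ ⊆ U := fun z hz => (hball z (ball_subset_ball hδa hz)).2.2.1
  refine ⟨fun z => P (z - z₀), δ, hδ0, hsubU, by simpa using hP0, ?_, hP'⟩
  rw [contDiffOn_infty]
  intro n
  have hAn : ContDiffOn ℝ n A (ball z₀ δ) := (hA.mono hsubU).of_le (by norm_cast; exact le_top)
  induction n with
  | zero =>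
    refine contDiffOn_zero.2 fun z hz => (hP' z hz).continuousAt.continuousWithinAt
  | succ n ih =>
    have hAn' : ContDiffOn ℝ n A (ball z₀ δ) := hAn.of_le (by norm_cast; omega)
    push_cast
    rw [contDiffOn_succ_iff_fderiv_of_isOpen isOpen_ball]
    refine ⟨fun z hz => (hP' z hz).differentiableAt.differentiableWithinAt, by simp, ?_⟩
    have h1 : ContDiffOn ℝ n (fun z => -(((ContinuousLinearMap.mul ℝ 𝔸).flip
        (P (z - z₀))).comp (A z))) (ball z₀ δ) := by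
      refine ContDiffOn.neg ?_
      refine ContDiffOn.clm_comp ?_ hAn'
      exact ((ContinuousLinearMap.mul ℝ 𝔸).flip.contDiff).comp_contDiffOn (ih hAn')
    exact h1.congr fun z hz => (hP' z hz).fderiv

end Pool.H1.Lor.CT
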