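import Pool.Agent.H1.Lor.Statement

/-!
# MP_5bfe9a_gt: sectional curvature in charts
-/

namespace Pool.MP_5bfe9a_gt

open scoped Manifold ContDiff

variable {V : Type*} [NormedAddCommGroup V] [NormedSpace ℝ V]
  {M : Type*} [TopologicalSpace M] [ChartedSpace V M]

/-- `Γ` are the Christoffel symbols of the metric `g` in the chart of `M` around `p`:
`g(Γ(u, v), w) = ½ (D_u g(v, w) + D_v g(u, w) - D_w g(u, v))` for all constant `u`, `v`, `w`,
at all points `z` of the chart. -/
def IsChristoffel (g : TensorField V M) (p : M) (Γ : V → V → V → V) : Prop :=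
  ∀ z ∈ (extChartAt 𝓘(ℝ, V) p).target, ∀ u v w : V,
    inChart g p z (Γ z u v) w = 1 / 2 * (fderiv ℝ (fun z => inChart g p z v w) z u
      + fderiv ℝ (fun z => inChart g p z u w) z v - fderiv ℝ (fun z => inChart g p z u v) z w)

/-- The curvature `R(u, v) w` at `z` of the connection with the Christoffel symbols `Γ`, that is
`D_u Γ(v, w) - D_v Γ(u, w) + Γ(u, Γ(v, w)) - Γ(v, Γ(u, w))`. -/
noncomputable def curvature (Γ : V → V → V → V) (z u v w : V) : V :=
  fderiv ℝ (fun z => Γ z v w) z u - fderiv ℝ (fun z => Γ z u w) z v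
    + Γ z u (Γ z v w) - Γ z v (Γ z u w)

/-- The metric `g` has constant sectional curvature `K`: in every chart, every nondegenerate plane
`span(u, v)` has `g(R(u, v) v, u) = K (g(u, u) g(v, v) - g(u, v)²)`. -/
def HasSectionalCurvature (g : TensorField V M) (K : ℝ) : Prop :=
  ∀ p : M, ∃ Γ : V → V → V → V, IsChristoffel g p Γ ∧
    ∀ z ∈ (extChartAt 𝓘(ℝ, V) p).target, ∀ u v : V,
      inChart g p z u u * inChart g p z v v - inChart g p z u v ^ 2 ≠ 0 →
      inChart g p z (curvature Γ z u v v) u =
        K * (inChart g p z u u * inChart g p z v v - inChart g p z u v ^ 2)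

end Pool.MP_5bfe9a_gt
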