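import Pool.Agent.H1.CT.Tensor
import Pool.Agent.H1.CT.Statement

/-!
# Constant sectional curvature implies local isometry with the model
-/

namespace Pool.H1.Lor.CT

open Filter Topology Set Metric Module
open scoped Manifold ContDiff
open Pool.MP_5bfe9a_gt

/-- The standard splitting. -/
noncomputable def prodSpl (V : Type*) [NormedAddCommGroup V] [NormedSpace ℝ V] :
    Spl V (V × ℝ) where
  i := ContinuousLinearMap.inl ℝ V ℝ
  j := (0, 1)
  p := ContinuousLinearMap.fst ℝ V ℝ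
  r := ContinuousLinearMap.snd ℝ V ℝ
  pi := fun _ => rfl
  pj := rfl
  ri := fun _ => rfl
  rj := rfl
  ext := fun e => by ext <;> simp

variable {V : Type*} [NormedAddCommGroup V] [NormedSpace ℝ V]
  {M : Type*} [TopologicalSpace M] [ChartedSpace V M] [IsManifold 𝓘(ℝ, V) ∞ M]
  {g : TensorField V M} {K : ℝ}

theorem symm_mfderiv {p x : M} (hx : x ∈ (extChartAt 𝓘(ℝ, V) p).source)
    (u : TangentSpace 𝓘(ℝ, V) x) :
    mfderiv 𝓘(ℝ, V) 𝓘(ℝ, V) (extChartAt 𝓘(ℝ, V) p).symm (extChartAt 𝓘(ℝ, V) p x)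
      (mfderiv 𝓘(ℝ, V) 𝓘(ℝ, V) (extChartAt 𝓘(ℝ, V) p) x u) = u := by
  have h4 := mfderivWithin_extChartAt_symm_comp_mfderiv_extChartAt' (I := 𝓘(ℝ, V)) hx
  rw [modelWithCornersSelf_coe, range_id, mfderivWithin_univ] at h4
  exact congrArg (fun L => L u) h4

theorem inChart_mfderiv {p x : M} (hx : x ∈ (extChartAt 𝓘(ℝ, V) p).source)
    (u v : TangentSpace 𝓘(ℝ, V) x) :
    inChart g p (extChartAt 𝓘(ℝ, V) p x)
      (mfderiv 𝓘(ℝ, V) 𝓘(ℝ, V) (extChartAt 𝓘(ℝ, V) p) x u)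
      (mfderiv 𝓘(ℝ, V) 𝓘(ℝ, V) (extChartAt 𝓘(ℝ, V) p) x v) = g x u v := by
  unfold inChart
  rw [symm_mfderiv hx, symm_mfderiv hx]
  have h : ∀ y : M, y = x → ∀ a b : V, (g y a b : ℝ) = g x a b := by
    rintro y rfl a b
    rfl
  exact h _ ((extChartAt 𝓘(ℝ, V) p).left_inv hx) u v

omit [IsManifold 𝓘(ℝ, V) ∞ M] in
/-- Pull-back of a Lorentz form under an isomorphism. -/
theorem lor_pull {X Y : Type*} [AddCommGroup X] [Module ℝ X] [AddCommGroup Y] [Module ℝ Y]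
    {q : Y → Y → ℝ} (hq : IsLorentzForm q) (A : X →ₗ[ℝ] Y) (B : Y → X) (hAB : ∀ w, A (B w) = w)
    (hinj : ∀ v, A v = 0 → v = 0) : IsLorentzForm (fun u v => q (A u) (A v)) := by
  obtain ⟨τ, hτ, hpos⟩ := hq.signature
  refine ⟨fun u v => hq.symm _ _, fun u v w => ?_, fun a u v => ?_, B τ, ?_, fun v hv hv0 => ?_⟩
  · rw [map_add, hq.map_add]
  · rw [map_smul, hq.map_smul]
  · simp only [hAB]
    exact hτ
  · simp only [hAB] at hv
    exact hpos _ hv fun h0 => hv0 (hinj v h0)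

theorem lorentz_inChart (hg : IsLorentzMetric g) (p : M) {z : V}
    (hz : z ∈ (extChartAt 𝓘(ℝ, V) p).target) :
    IsLorentzForm (fun u v => inChart g p z u v) := by
  have h1 := mfderiv_extChartAt_comp_mfderivWithin_extChartAt_symm (I := 𝓘(ℝ, V)) hz
  rw [modelWithCornersSelf_coe, range_id, mfderivWithin_univ] at h1
  have h2 := mfderivWithin_extChartAt_symm_comp_mfderiv_extChartAt (I := 𝓘(ℝ, V)) hz
  rw [modelWithCornersSelf_coe, range_id, mfderivWithin_univ] at h2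
  have hL := hg.lorentz ((extChartAt 𝓘(ℝ, V) p).symm z)
  have h3 : ∀ w, mfderiv 𝓘(ℝ, V) 𝓘(ℝ, V) (extChartAt 𝓘(ℝ, V) p).symm z
      (mfderiv 𝓘(ℝ, V) 𝓘(ℝ, V) (extChartAt 𝓘(ℝ, V) p) ((extChartAt 𝓘(ℝ, V) p).symm z) w) = w :=
    fun w => congrArg (fun L => L w) h2
  have h4 : ∀ w, mfderiv 𝓘(ℝ, V) 𝓘(ℝ, V) (extChartAt 𝓘(ℝ, V) p)
      ((extChartAt 𝓘(ℝ, V) p).symm z)
      (mfderiv 𝓘(ℝ, V) 𝓘(ℝ, V) (extChartAt 𝓘(ℝ, V) p).symm z w) = w :=
    fun w => congrArg (fun L => L w) h1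
  exact lor_pull hL (mfderiv 𝓘(ℝ, V) 𝓘(ℝ, V) (extChartAt 𝓘(ℝ, V) p).symm z).toLinearMap
    (fun w => mfderiv 𝓘(ℝ, V) 𝓘(ℝ, V) (extChartAt 𝓘(ℝ, V) p)
      ((extChartAt 𝓘(ℝ, V) p).symm z) w) h3 (fun v hv => by
        have h5 := h4 v
        have h6 : mfderiv 𝓘(ℝ, V) 𝓘(ℝ, V) (extChartAt 𝓘(ℝ, V) p).symm z v = 0 := hv
        rw [h6, map_zero] at h5
        exact h5.symm)

variable [FiniteDimensional ℝ V]

open Classical in
/-- The metric in a chart, as a bilinear map. -/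
noncomputable def Gc (g : TensorField V M) (p : M) (z : V) : V →L[ℝ] V →L[ℝ] ℝ :=
  if h : IsLorentzForm (fun u v => inChart g p z u v) then (lorLin h).toContinuousBilinearMap
  else 0

theorem Gc_apply (hg : IsLorentzMetric g) (p : M) {z : V}
    (hz : z ∈ (extChartAt 𝓘(ℝ, V) p).target) (u v : V) : Gc g p z u v = inChart g p z u v := by
  unfold Gc
  rw [dif_pos (lorentz_inChart hg p hz)]
  rfl

theorem metData (hg : IsLorentzMetric g) (p : M) :
    MetData (extChartAt 𝓘(ℝ, V) p).target (Gc g p) where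
  isOpen := isOpen_extChartAt_target p
  lor := by
    intro z hz
    have h := lorentz_inChart hg p hz
    have h2 : (fun u v => Gc g p z u v) = fun u v => inChart g p z u v := by
      funext u v
      exact Gc_apply hg p hz u v
    rw [h2]
    exact h
  smoothG := by
    rw [contDiffOn_clm_apply]
    intro u
    rw [contDiffOn_clm_apply]
    intro v
    exact (hg.smooth p u v).congr fun z hz => Gc_apply hg p hz u v

theorem fderiv_Gc (hg : IsLorentzMetric g) (p : M) {z : V}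
    (hz : z ∈ (extChartAt 𝓘(ℝ, V) p).target) (u v w : V) :
    fderiv ℝ (Gc g p) z u v w = fderiv ℝ (fun z => inChart g p z v w) z u := by
  rw [(metData hg p).D_eq hz]
  have h : (fun z => Gc g p z v w) =ᶠ[𝓝 z] fun z => inChart g p z v w := by
    filter_upwards [(isOpen_extChartAt_target p).mem_nhds hz] with z' hz'
      using Gc_apply hg p hz' v w
  rw [h.fderiv_eq]

theorem chris_eq (hg : IsLorentzMetric g) (p : M) {Γ : V → V → V → V}
    (hΓ : IsChristoffel g p Γ) {z : V} (hz : z ∈ (extChartAt 𝓘(ℝ, V) p).target) (u v : V) :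
    Γ z u v = chris (Gc g p) z u v := by
  refine sub_eq_zero.1 ((metData hg p).nondeg hz _ fun w => ?_)
  rw [map_sub, sub_apply, (metData hg p).G_chris hz, Gc_apply hg p hz, hΓ z hz,
    fderiv_Gc hg p hz, fderiv_Gc hg p hz, fderiv_Gc hg p hz, sub_self]

theorem curvature_eq (hg : IsLorentzMetric g) (p : M) {Γ : V → V → V → V}
    (hΓ : IsChristoffel g p Γ) {z : V} (hz : z ∈ (extChartAt 𝓘(ℝ, V) p).target) (u v w : V) :
    curvature Γ z u v w = Rm (Gc g p) z u v w := by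
  have h1 : ∀ a b c : V, fderiv ℝ (fun z => Γ z b c) z a = fderiv ℝ (chris (Gc g p)) z a b c := by
    intro a b c
    have h2 : (fun z => Γ z b c) =ᶠ[𝓝 z] fun z => chris (Gc g p) z b c := by
      filter_upwards [(isOpen_extChartAt_target p).mem_nhds hz] with z' hz'
        using chris_eq hg p hΓ hz' b c
    rw [h2.fderiv_eq, (hasFDerivAt_eval2 ((metData hg p).hasFDerivAt_chris hz) b c).fderiv]
    simp
  unfold curvature Rm
  simp only [h1, chris_eq hg p hΓ hz]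

theorem curvData_of (hg : IsLorentzMetric g) (hdim : 2 ≤ finrank ℝ V)
    (hK : HasSectionalCurvature g K) (p : M) :
    CurvData (extChartAt 𝓘(ℝ, V) p).target (Gc g p) (chris (Gc g p)) K := by
  obtain ⟨Γ, hΓ, hs⟩ := hK p
  refine (metData hg p).curvData hdim fun z hz u v huv => ?_
  rw [Gc_apply hg p hz, Gc_apply hg p hz, Gc_apply hg p hz] at huv ⊢
  rw [Gc_apply hg p hz, ← curvature_eq hg p hΓ hz]
  exact hs z hz u v huv

omit [FiniteDimensional ℝ V] in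
/-- Derivative of a map given in a chart. -/
theorem mfderiv_chart_comp {W : Type*} [NormedAddCommGroup W] [NormedSpace ℝ W] {F : V → W}
    {p x : M} (hx : x ∈ (extChartAt 𝓘(ℝ, V) p).source)
    (hF : DifferentiableAt ℝ F (extChartAt 𝓘(ℝ, V) p x)) (u : TangentSpace 𝓘(ℝ, V) x) :
    mfderiv 𝓘(ℝ, V) 𝓘(ℝ, W) (F ∘ extChartAt 𝓘(ℝ, V) p) x u =
      fderiv ℝ F (extChartAt 𝓘(ℝ, V) p x)
        (mfderiv 𝓘(ℝ, V) 𝓘(ℝ, V) (extChartAt 𝓘(ℝ, V) p) x u) := by
  have hx' : x ∈ (chartAt V p).source := by rwa [extChartAt_source] at hx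
  rw [mfderiv_comp_apply x hF.mdifferentiableAt (mdifferentiableAt_extChartAt hx')]
  rw [mfderiv_eq_fderiv]
  rfl

omit [FiniteDimensional ℝ V] in
theorem isometry_of_coord {W : Type*} [NormedAddCommGroup W] [NormedSpace ℝ W] {F : V → W}
    {β : W → W → ℝ} {p x : M} (hx : x ∈ (extChartAt 𝓘(ℝ, V) p).source)
    (hF : DifferentiableAt ℝ F (extChartAt 𝓘(ℝ, V) p x))
    (h : ∀ a b : V, β (fderiv ℝ F (extChartAt 𝓘(ℝ, V) p x) a)
      (fderiv ℝ F (extChartAt 𝓘(ℝ, V) p x) b) = inChart g p (extChartAt 𝓘(ℝ, V) p x) a b) :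
    IsIsometryAt g β (F ∘ extChartAt 𝓘(ℝ, V) p) x := by
  intro u v
  rw [mfderiv_chart_comp hx hF, mfderiv_chart_comp hx hF]
  exact (h _ _).trans (inChart_mfderiv hx u v)

/-- The model map in a chart. -/
theorem exists_coord (hg : IsLorentzMetric g) (hdim : 2 ≤ finrank ℝ V)
    (hK : HasSectionalCurvature g K) {q : V → V → ℝ} (hq : IsLorentzForm q) (p : M) :
    ∃ δ > 0,
      (K = 0 → ∃ F : V → V, ContDiffOn ℝ ∞ F (ball (extChartAt 𝓘(ℝ, V) p p) δ) ∧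
        ∀ z ∈ ball (extChartAt 𝓘(ℝ, V) p p) δ, ∀ a b : V,
          q (fderiv ℝ F z a) (fderiv ℝ F z b) = inChart g p z a b) ∧
      (K ≠ 0 → ∃ F : V → V × ℝ, ContDiffOn ℝ ∞ F (ball (extChartAt 𝓘(ℝ, V) p p) δ) ∧
        ∀ z ∈ ball (extChartAt 𝓘(ℝ, V) p p) δ, ambient q K (F z) (F z) = 1 / K ∧ ∀ a b : V,
          ambient q K (fderiv ℝ F z a) (fderiv ℝ F z b) = inChart g p z a b) := by
  have hbase : extChartAt 𝓘(ℝ, V) p p ∈ (extChartAt 𝓘(ℝ, V) p).target :=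
    mem_extChartAt_target p
  obtain ⟨Φ, δ, hδ, hsub, hΦ, h1, h2, h3⟩ := (curvData_of hg hdim hK p).exists_model
    (prodSpl V) hbase
  obtain ⟨T, hT⟩ := lor_equiv (lorentz_inChart hg p hbase) hq
  generalize extChartAt 𝓘(ℝ, V) p p = z₀ at *
  have hGz : ∀ a b : V, Gc g p z₀ a b = q (T a) (T b) := by
    intro a b
    rw [Gc_apply hg p hbase, hT]
  have hdiff : ∀ z ∈ ball z₀ δ, HasFDerivAt Φ (fderiv ℝ Φ z) z := fun z hz =>
    ((hΦ.contDiffAt (isOpen_ball.mem_nhds hz)).differentiableAt (by simp)).hasFDerivAt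
  set Tc : V →L[ℝ] V := LinearMap.toContinuousLinearMap (T : V →ₗ[ℝ] V) with hTc
  have hTc' : ∀ a, Tc a = T a := fun a => rfl
  refine ⟨δ, hδ, fun hK0 => ?_, fun hK0 => ?_⟩
  · set L : (V × ℝ) →L[ℝ] V := Tc.comp (ContinuousLinearMap.fst ℝ V ℝ) with hL
    have hL' : ∀ a, L a = T a.1 := fun a => rfl
    have hF' : ∀ z ∈ ball z₀ δ, HasFDerivAt (fun z => L (Φ z)) (L.comp (fderiv ℝ Φ z)) z :=
      fun z hz => L.hasFDerivAt.comp z (hdiff z hz)
    refine ⟨fun z => L (Φ z), L.contDiff.comp_contDiffOn hΦ, fun z hz a b => ?_⟩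
    rw [(hF' z hz).fderiv, ← Gc_apply hg p (hsub hz), ← h3 hK0 z hz, hGz]
    rfl
  · set L : (V × ℝ) →L[ℝ] (V × ℝ) := (Tc.comp (ContinuousLinearMap.fst ℝ V ℝ)).prod
      (ContinuousLinearMap.snd ℝ V ℝ) with hL
    have hL' : ∀ a b : V × ℝ, ambient q K (L a) (L b) = 1 / K *
        (K * Gc g p z₀ a.1 b.1 + a.2 * b.2) := by
      intro a b
      rw [hGz]
      have e1 : ∀ a : V × ℝ, L a = (T a.1, a.2) := fun a => rfl
      rw [e1, e1]
      simp only [ambient]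
      field_simp
    have hF' : ∀ z ∈ ball z₀ δ, HasFDerivAt (fun z => L (Φ z)) (L.comp (fderiv ℝ Φ z)) z :=
      fun z hz => L.hasFDerivAt.comp z (hdiff z hz)
    refine ⟨fun z => L (Φ z), L.contDiff.comp_contDiffOn hΦ, fun z hz => ⟨?_, fun a b => ?_⟩⟩
    · have h5 : K * Gc g p z₀ (Φ z).1 (Φ z).1 + (Φ z).2 * (Φ z).2 = 1 := h1 z hz
      rw [hL', h5, mul_one]
    · have h5 : K * Gc g p z₀ (fderiv ℝ Φ z a).1 (fderiv ℝ Φ z b).1 +
        (fderiv ℝ Φ z a).2 * (fderiv ℝ Φ z b).2 = K * Gc g p z a b := h2 z hz a b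
      rw [(hF' z hz).fderiv, ContinuousLinearMap.comp_apply, ContinuousLinearMap.comp_apply,
        hL', h5, Gc_apply hg p (hsub hz)]
      field_simp

/-- Constant sectional curvature implies local isometry with the model space. -/
theorem hasConstantCurvature [Nonempty M] (hg : IsLorentzMetric g) (hdim : 2 ≤ finrank ℝ V)
    (hK : HasSectionalCurvature g K) : HasConstantCurvature g K := by
  obtain ⟨p₀⟩ := ‹Nonempty M›
  set q : V → V → ℝ := fun u v => inChart g p₀ (extChartAt 𝓘(ℝ, V) p₀ p₀) u v with hq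
  have hqL : IsLorentzForm q := lorentz_inChart hg p₀ (mem_extChartAt_target p₀)
  refine ⟨q, hqL, fun p => ?_⟩
  obtain ⟨δ, hδ, h0, h1⟩ := exists_coord hg hdim hK hqL p
  have hmem := mem_ball_self (x := extChartAt 𝓘(ℝ, V) p p) hδ
  have hev : ∀ᶠ x in 𝓝 p, x ∈ (extChartAt 𝓘(ℝ, V) p).source ∧
      extChartAt 𝓘(ℝ, V) p x ∈ ball (extChartAt 𝓘(ℝ, V) p p) δ := by
    filter_upwards [extChartAt_source_mem_nhds (I := 𝓘(ℝ, V)) p,
      (continuousAt_extChartAt (I := 𝓘(ℝ, V)) p).tendsto.eventually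
        (isOpen_ball.mem_nhds hmem)] with x hx1 hx2 using ⟨hx1, hx2⟩
  constructor
  · intro hK0
    obtain ⟨F, hF, hF2⟩ := h0 hK0
    refine ⟨F ∘ extChartAt 𝓘(ℝ, V) p, (hF.contDiffAt (isOpen_ball.mem_nhds hmem)).contMDiffAt.comp
      p contMDiffAt_extChartAt, ?_⟩
    filter_upwards [hev] with x hx
    exact isometry_of_coord hx.1 ((hF.contDiffAt (isOpen_ball.mem_nhds hx.2)).differentiableAt
      (by simp)) (hF2 _ hx.2)
  · intro hK0
    obtain ⟨F, hF, hF2⟩ := h1 hK0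
    refine ⟨F ∘ extChartAt 𝓘(ℝ, V) p, (hF.contDiffAt (isOpen_ball.mem_nhds hmem)).contMDiffAt.comp
      p contMDiffAt_extChartAt, ?_⟩
    filter_upwards [hev] with x hx
    exact ⟨(hF2 _ hx.2).1, isometry_of_coord hx.1
      ((hF.contDiffAt (isOpen_ball.mem_nhds hx.2)).differentiableAt (by simp)) (hF2 _ hx.2).2⟩

end Pool.H1.Lor.CT
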