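import Pool.Agent.H1.CT.Coord

/-!
# The developing map of a metric of constant curvature, in coordinates
-/

namespace Pool.H1.Lor.CT

open Filter Topology Set Metric
open scoped ContDiff

variable {V : Type*} [NormedAddCommGroup V] [NormedSpace ℝ V] [FiniteDimensional ℝ V]
  {E : Type*} [NormedAddCommGroup E] [NormedSpace ℝ E] [FiniteDimensional ℝ E]
  {U : Set V} {G : V → V →L[ℝ] V →L[ℝ] ℝ} {Γ : V → V →L[ℝ] V →L[ℝ] V} {K : ℝ}

omit [FiniteDimensional ℝ V] in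
theorem const_on_ball {f : V → ℝ} {z₀ : V} {δ : ℝ}
    (hf : ∀ z ∈ ball z₀ δ, ∃ f' : V →L[ℝ] ℝ, HasFDerivAt f f' z ∧ ∀ u, f' u = 0) :
    ∀ z ∈ ball z₀ δ, ∀ z' ∈ ball z₀ δ, f z = f z' := by
  intro z hz z' hz'
  refine isOpen_ball.is_const_of_fderiv_eq_zero (𝕜 := ℝ) (convex_ball z₀ δ).isPreconnected
    (fun w hw => ?_) (fun w hw => ?_) hz hz'
  · obtain ⟨f', h1, -⟩ := hf w hw
    exact h1.differentiableAt.differentiableWithinAt
  · obtain ⟨f', h1, h2⟩ := hf w hw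
    rw [h1.fderiv]
    ext u
    exact h2 u

omit [FiniteDimensional ℝ V] [FiniteDimensional ℝ E] in
/-- The derivative of a parallel section. -/
theorem parallel_deriv (s : Spl V E) {P : V → E →L[ℝ] E} {z : V}
    (hP : HasFDerivAt P (-(((ContinuousLinearMap.mul ℝ (E →L[ℝ] E)).flip (P z)).comp
      (conn s G Γ K z))) z) (e : E) :
    (∃ D : V →L[ℝ] V, HasFDerivAt (fun z => s.p (P z e)) D z ∧
      ∀ u, D u = -(Γ z u (s.p (P z e)) + s.r (P z e) • u)) ∧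
    (∃ D : V →L[ℝ] ℝ, HasFDerivAt (fun z => s.r (P z e)) D z ∧
      ∀ u, D u = K * G z u (s.p (P z e))) := by
  have h1 := hP.clm_apply (hasFDerivAt_const e z)
  have h2 := s.p.hasFDerivAt.comp z h1
  have h3 := s.r.hasFDerivAt.comp z h1
  have hm : ∀ (a b : E →L[ℝ] E) (e : E), (a * b) e = a (b e) := fun _ _ _ => rfl
  refine ⟨⟨_, h2, fun u => ?_⟩, ⟨_, h3, fun u => ?_⟩⟩
  · simp [hm, conn_apply, s.pi, s.pj]
  · simp [hm, conn_apply, s.ri, s.rj]

omit [FiniteDimensional ℝ V] in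
/-- The derivative of the pairing of two sections. -/
theorem pairing_deriv (h : CurvData U G Γ K) {z : V} (hz : z ∈ U) {X Y : V → V}
    {DX DY : V →L[ℝ] V} (hX : HasFDerivAt X DX z) (hY : HasFDerivAt Y DY z) :
    ∃ D : V →L[ℝ] ℝ, HasFDerivAt (fun z => G z (X z) (Y z)) D z ∧ ∀ u, D u =
      G z (Γ z u (X z) + DX u) (Y z) + G z (X z) (Γ z u (Y z) + DY u) := by
  have h1 := ((h.hasFDerivAt_G hz).clm_apply hX).clm_apply hY
  refine ⟨_, h1, fun u => ?_⟩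
  have h2 := h.comp z hz u (X z) (Y z)
  simp only [add_apply, ContinuousLinearMap.comp_apply, ContinuousLinearMap.flip_apply,
    map_add]
  rw [h2]
  ring

/-- The developing map. -/
theorem CurvData.exists_model (h : CurvData U G Γ K) (s : Spl V E) {z₀ : V} (hz₀ : z₀ ∈ U) :
    ∃ Φ : V → E, ∃ δ > 0, ball z₀ δ ⊆ U ∧ ContDiffOn ℝ ∞ Φ (ball z₀ δ) ∧
      (∀ z ∈ ball z₀ δ, K * G z₀ (s.p (Φ z)) (s.p (Φ z)) + s.r (Φ z) * s.r (Φ z) = 1) ∧
      (∀ z ∈ ball z₀ δ, ∀ u v, K * G z₀ (s.p (fderiv ℝ Φ z u)) (s.p (fderiv ℝ Φ z v)) +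
         s.r (fderiv ℝ Φ z u) * s.r (fderiv ℝ Φ z v) = K * G z u v) ∧
      (K = 0 → ∀ z ∈ ball z₀ δ, ∀ u v,
        G z₀ (s.p (fderiv ℝ Φ z u)) (s.p (fderiv ℝ Φ z v)) = G z u v) := by
  have : CompleteSpace E := FiniteDimensional.complete ℝ E
  have hm : ∀ (a b : E →L[ℝ] E) (e : E), (a * b) e = a (b e) := fun _ _ _ => rfl
  obtain ⟨P, δ₁, hδ₁, hsub, hP0, hPs, hP⟩ := frobenius h.isOpen hz₀
    (contDiffOn_conn s K h.smoothG h.smoothΓ) (fun z hz u v => h.flat s hz u v)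
  have hunit : ∀ᶠ z in 𝓝 z₀, IsUnit (P z) := by
    have h1 : ContinuousAt P z₀ := (hP z₀ (mem_ball_self hδ₁)).continuousAt
    have h2 : {x : E →L[ℝ] E | IsUnit x} ∈ 𝓝 (P z₀) := by
      refine Units.isOpen.mem_nhds ?_
      rw [hP0]
      exact isUnit_one
    exact h1 h2
  obtain ⟨δ₂, hδ₂, hball⟩ := Metric.eventually_nhds_iff_ball.1 hunit
  set δ := min δ₁ δ₂ with hδdef
  have hδ : 0 < δ := lt_min hδ₁ hδ₂
  have hb1 : ∀ z ∈ ball z₀ δ, z ∈ ball z₀ δ₁ := fun z hz => ball_subset_ball (min_le_left _ _) hz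
  have hb2 : ∀ z ∈ ball z₀ δ, IsUnit (P z) := fun z hz =>
    hball z (ball_subset_ball (min_le_right _ _) hz)
  have hz₀b : z₀ ∈ ball z₀ δ := mem_ball_self hδ
  set Q : V → E →L[ℝ] E := fun z => Ring.inverse (P z) with hQ
  have hPQ : ∀ z ∈ ball z₀ δ, ∀ e, P z (Q z e) = e := by
    intro z hz e
    rw [← hm, hQ]
    simp only
    rw [Ring.mul_inverse_cancel _ (hb2 z hz)]
    rfl
  have hQs : ContDiffOn ℝ ∞ Q (ball z₀ δ) := by
    intro z hz
    obtain ⟨x, hx⟩ := hb2 z hz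
    have h1 : ContDiffAt ℝ ∞ Ring.inverse (P z) := by
      rw [← hx]
      exact contDiffAt_ringInverse ℝ x
    have h2 : ContDiffAt ℝ ∞ P z := hPs.contDiffAt (isOpen_ball.mem_nhds (hb1 z hz))
    exact (h1.comp z h2).contDiffWithinAt
  have hj : ∀ z u, conn s G Γ K z u s.j = s.i u := by
    intro z u
    rw [conn_apply, s.pj, s.rj]
    simp
  have hΦ' : ∀ z ∈ ball z₀ δ, ∀ u, fderiv ℝ (fun z => Q z s.j) z u = Q z (s.i u) := by
    intro z hz u
    obtain ⟨x, hx⟩ := hb2 z hz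
    have h1 : HasFDerivAt Ring.inverse
        (-ContinuousLinearMap.mulLeftRight ℝ (E →L[ℝ] E) ↑x⁻¹ ↑x⁻¹) (P z) := by
      rw [← hx]
      exact hasFDerivAt_ringInverse x
    have h2 := (h1.comp z (hP z (hb1 z hz))).clm_apply (hasFDerivAt_const s.j z)
    have h3 : HasFDerivAt (fun z => Q z s.j) _ z := h2
    rw [h3.fderiv]
    have hQz : Q z = ↑x⁻¹ := by
      rw [hQ]
      simp only
      rw [← hx, Ring.inverse_unit]
    rw [← hj z u, hQz, ← hx]
    have hxx : ∀ e : E, (x : E →L[ℝ] E) ((↑x⁻¹ : E →L[ℝ] E) e) = e := by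
      intro e
      rw [← hm, Units.mul_inv]
      rfl
    simp [hm, hxx]
  -- preserved quantities
  have hpres : ∀ e e' : E, ∀ z ∈ ball z₀ δ,
      K * G z (s.p (P z e)) (s.p (P z e')) + s.r (P z e) * s.r (P z e') =
      K * G z₀ (s.p e) (s.p e') + s.r e * s.r e' := by
    intro e e' z hz
    have h1 := const_on_ball (f := fun z => K * G z (s.p (P z e)) (s.p (P z e')) +
      s.r (P z e) * s.r (P z e')) (z₀ := z₀) (δ := δ) (fun w hw => by
        obtain ⟨⟨DX, hX, hX'⟩, ⟨Dx, hx, hx'⟩⟩ := parallel_deriv s (hP w (hb1 w hw)) e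
        obtain ⟨⟨DY, hY, hY'⟩, ⟨Dy, hy, hy'⟩⟩ := parallel_deriv s (hP w (hb1 w hw)) e'
        obtain ⟨D, hD, hD'⟩ := pairing_deriv h (hsub (hb1 w hw)) hX hY
        refine ⟨_, (hD.const_mul K).add (hx.mul hy), fun u => ?_⟩
        have hs := h.symm w (hsub (hb1 w hw))
        simp only [add_apply, smul_apply, hD', hX', hY', hx', hy', smul_eq_mul]
        simp only [neg_add, add_neg_cancel_left, map_neg, neg_apply, map_smul, smul_apply,
          smul_eq_mul, hs (s.p (P w e)) u]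
        ring) z hz z₀ hz₀b
    beta_reduce at h1
    rw [h1, hP0]
    rfl
  refine ⟨fun z => Q z s.j, δ, hδ, fun z hz => hsub (hb1 z hz),
    hQs.clm_apply contDiffOn_const, fun z hz => ?_, fun z hz u v => ?_, fun hK z hz u v => ?_⟩
  · have h1 := hpres (Q z s.j) (Q z s.j) z hz
    rw [hPQ z hz, s.pj, s.rj] at h1
    simp only [map_zero, mul_zero, zero_add, mul_one] at h1
    exact h1.symm
  · rw [hΦ' z hz, hΦ' z hz]
    have h1 := hpres (Q z (s.i u)) (Q z (s.i v)) z hz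
    rw [hPQ z hz, hPQ z hz, s.pi, s.pi, s.ri, s.ri, mul_zero, add_zero] at h1
    exact h1.symm
  · rw [hΦ' z hz, hΦ' z hz]
    have hr : ∀ u, ∀ w ∈ ball z₀ δ, s.r (P w (Q z (s.i u))) = 0 := by
      intro u w hw
      have h1 := const_on_ball (f := fun w => s.r (P w (Q z (s.i u)))) (z₀ := z₀) (δ := δ)
        (fun w hw => by
          obtain ⟨-, ⟨Dx, hx, hx'⟩⟩ := parallel_deriv s (hP w (hb1 w hw)) (Q z (s.i u))
          exact ⟨Dx, hx, fun a => by rw [hx', hK, zero_mul]⟩) w hw z hz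
      beta_reduce at h1
      rw [h1, hPQ z hz, s.ri]
    have h1 := const_on_ball (f := fun w => G w (s.p (P w (Q z (s.i u))))
      (s.p (P w (Q z (s.i v))))) (z₀ := z₀) (δ := δ) (fun w hw => by
        obtain ⟨⟨DX, hX, hX'⟩, -⟩ := parallel_deriv s (hP w (hb1 w hw)) (Q z (s.i u))
        obtain ⟨⟨DY, hY, hY'⟩, -⟩ := parallel_deriv s (hP w (hb1 w hw)) (Q z (s.i v))
        obtain ⟨D, hD, hD'⟩ := pairing_deriv h (hsub (hb1 w hw)) hX hY
        refine ⟨D, hD, fun a => ?_⟩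
        rw [hD', hX', hY', hr u w hw, hr v w hw]
        simp) z hz z₀ hz₀b
    beta_reduce at h1
    rw [hPQ z hz, hPQ z hz, s.pi, s.pi, hP0] at h1
    exact h1.symm

end Pool.H1.Lor.CT
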