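import Pool.Agent.H1.CT.Model

/-!
# From sectional curvature to the curvature tensor
-/

namespace Pool.H1.Lor.CT

open Filter Topology Set Metric Module
open scoped ContDiff
open Pool.MP_5bfe9a_gt

variable {V : Type*} [NormedAddCommGroup V] [NormedSpace ℝ V]

/-- The Koszul expression `½ (D u v w + D v u w - D w u v)`. -/
noncomputable def kos (D : V →L[ℝ] (V →L[ℝ] V →L[ℝ] ℝ)) (u v : V) : V →L[ℝ] ℝ :=
  (1 / 2 : ℝ) • (D u v + D v u - (D.flip u).flip v)

theorem kos_apply (D : V →L[ℝ] (V →L[ℝ] V →L[ℝ] ℝ)) (u v w : V) :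
    kos D u v w = 1 / 2 * (D u v w + D v u w - D w u v) := by
  simp [kos]

variable [FiniteDimensional ℝ V]

/-- The musical isomorphism. -/
noncomputable def musical (L : V →L[ℝ] V →L[ℝ] ℝ) (h : ∀ u, (∀ v, L u v = 0) → u = 0) :
    V ≃L[ℝ] (V →L[ℝ] ℝ) :=
  (LinearEquiv.ofInjectiveOfFinrankEq (L : V →ₗ[ℝ] (V →L[ℝ] ℝ)) (by
    rw [← LinearMap.ker_eq_bot, LinearMap.ker_eq_bot']
    intro u hu
    exact h u fun v => by
      have := congrArg (fun f : V →L[ℝ] ℝ => f v) hu
      simpa using this) (by
    have h1 : finrank ℝ (V →L[ℝ] ℝ) = finrank ℝ (V →ₗ[ℝ] ℝ) :=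
      (LinearMap.toContinuousLinearMap (𝕜 := ℝ) (E := V) (F' := ℝ)).finrank_eq.symm
    rw [h1, Module.finrank_linearMap_self])).toContinuousLinearEquiv

theorem musical_coe (L : V →L[ℝ] V →L[ℝ] ℝ) (h : ∀ u, (∀ v, L u v = 0) → u = 0) :
    (musical L h : V →L[ℝ] (V →L[ℝ] ℝ)) = L := by
  ext u v
  rfl

/-- The Christoffel symbols. -/
noncomputable def chris (G : V → V →L[ℝ] V →L[ℝ] ℝ) (z : V) : V →L[ℝ] V →L[ℝ] V :=
  (LinearMap.mk₂ ℝ (fun u v => (G z).inverse (kos (fderiv ℝ G z) u v))
    (fun u u' v => by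
      rw [← map_add]; congr 1; ext w; simp [kos_apply]; ring)
    (fun c u v => by
      rw [← map_smul]; congr 1; ext w; simp [kos_apply]; ring)
    (fun u v v' => by
      rw [← map_add]; congr 1; ext w; simp [kos_apply]; ring)
    (fun c u v => by
      rw [← map_smul]; congr 1; ext w; simp [kos_apply]; ring)).toContinuousBilinearMap

theorem chris_apply (G : V → V →L[ℝ] V →L[ℝ] ℝ) (z u v : V) :
    chris G z u v = (G z).inverse (kos (fderiv ℝ G z) u v) := rfl

/-- A smooth Lorentz metric on an open set. -/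
structure MetData (U : Set V) (G : V → V →L[ℝ] V →L[ℝ] ℝ) : Prop where
  isOpen : IsOpen U
  lor : ∀ z ∈ U, IsLorentzForm (fun u v => G z u v)
  smoothG : ContDiffOn ℝ ∞ G U

variable {U : Set V} {G : V → V →L[ℝ] V →L[ℝ] ℝ} {K : ℝ}

namespace MetData

omit [FiniteDimensional ℝ V] in
theorem symm (h : MetData U G) {z : V} (hz : z ∈ U) (u v : V) : G z u v = G z v u :=
  (h.lor z hz).symm u v

omit [FiniteDimensional ℝ V] in
theorem nondeg (h : MetData U G) {z : V} (hz : z ∈ U) (u : V) (hu : ∀ v, G z u v = 0) : u = 0 :=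
  lorentz_nondeg (h.lor z hz) hu

omit [FiniteDimensional ℝ V] in
theorem hasFDerivAt_G (h : MetData U G) {z : V} (hz : z ∈ U) :
    HasFDerivAt G (fderiv ℝ G z) z :=
  ((h.smoothG.contDiffAt (h.isOpen.mem_nhds hz)).differentiableAt (by simp)).hasFDerivAt

omit [FiniteDimensional ℝ V] in
theorem D_eq (h : MetData U G) {z : V} (hz : z ∈ U) (u v w : V) :
    fderiv ℝ G z u v w = fderiv ℝ (fun z => G z v w) z u := by
  have h1 := hasFDerivAt_eval2 (h.hasFDerivAt_G hz) v w
  rw [h1.fderiv]
  simp

omit [FiniteDimensional ℝ V] in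
theorem smooth_eval (h : MetData U G) (v w : V) : ContDiffOn ℝ ∞ (fun z => G z v w) U :=
  (h.smoothG.clm_apply contDiffOn_const).clm_apply contDiffOn_const

omit [FiniteDimensional ℝ V] in
theorem smooth_D (h : MetData U G) (u v w : V) :
    ContDiffOn ℝ ∞ (fun z => fderiv ℝ G z u v w) U :=
  (((h.smooth_eval v w).fderiv_of_isOpen h.isOpen (by simp)).clm_apply
    contDiffOn_const).congr fun z hz => h.D_eq hz u v w

omit [FiniteDimensional ℝ V] in
theorem D_symm (h : MetData U G) {z : V} (hz : z ∈ U) (u v w : V) :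
    fderiv ℝ G z u v w = fderiv ℝ G z u w v := by
  have h1 := hasFDerivAt_eval2 (h.hasFDerivAt_G hz) v w
  have h2 := hasFDerivAt_eval2 (h.hasFDerivAt_G hz) w v
  have h3 : (fun z => G z v w) =ᶠ[𝓝 z] fun z => G z w v := by
    filter_upwards [h.isOpen.mem_nhds hz] with z' hz' using h.symm hz' v w
  have h4 := congrArg (fun L => L u) (h1.unique (h2.congr_of_eventuallyEq h3))
  simpa using h4

theorem inverse_coe (h : MetData U G) {z : V} (hz : z ∈ U) :
    (G z).inverse = ((musical (G z) (h.nondeg hz)).symm : (V →L[ℝ] ℝ) →L[ℝ] V) := by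
  have := ContinuousLinearMap.inverse_equiv (musical (G z) (h.nondeg hz))
  rw [musical_coe] at this
  exact this

theorem G_inverse (h : MetData U G) {z : V} (hz : z ∈ U) (l : V →L[ℝ] ℝ) :
    G z ((G z).inverse l) = l := by
  rw [h.inverse_coe hz]
  have h1 : musical (G z) (h.nondeg hz) ((musical (G z) (h.nondeg hz)).symm l) = l :=
    ContinuousLinearEquiv.apply_symm_apply _ _
  have h2 := musical_coe (G z) (h.nondeg hz)
  have h3 := congrArg (fun f : V →L[ℝ] (V →L[ℝ] ℝ) =>
    f ((musical (G z) (h.nondeg hz)).symm l)) h2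
  exact h3.symm.trans h1

theorem G_chris (h : MetData U G) {z : V} (hz : z ∈ U) (u v w : V) :
    G z (chris G z u v) w = 1 / 2 * (fderiv ℝ G z u v w + fderiv ℝ G z v u w
      - fderiv ℝ G z w u v) := by
  rw [chris_apply, h.G_inverse hz, kos_apply]

theorem comp (h : MetData U G) {z : V} (hz : z ∈ U) (u v w : V) :
    fderiv ℝ G z u v w = G z (chris G z u v) w + G z v (chris G z u w) := by
  rw [h.symm hz v, h.G_chris hz, h.G_chris hz, h.D_symm hz u w v, h.D_symm hz w u v]
  ring

theorem torsion (h : MetData U G) {z : V} (hz : z ∈ U) (u v : V) :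
    chris G z u v = chris G z v u := by
  rw [chris_apply, chris_apply]
  congr 1
  ext w
  rw [kos_apply, kos_apply, h.D_symm hz w u v]
  ring

theorem smooth_chris (h : MetData U G) : ContDiffOn ℝ ∞ (chris G) U := by
  rw [contDiffOn_clm_apply]
  intro u
  rw [contDiffOn_clm_apply]
  intro v
  simp only [chris_apply]
  have h1 : ContDiffOn ℝ ∞ (fun z => (G z).inverse) U := by
    intro z hz
    have h2 : ContDiffAt ℝ ∞ ContinuousLinearMap.inverse (G z) := by
      have h3 := contDiffAt_map_inverse (𝕜 := ℝ) (n := ∞) (musical (G z) (h.nondeg hz))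
      rwa [musical_coe] at h3
    exact (h2.comp z (h.smoothG.contDiffAt (h.isOpen.mem_nhds hz))).contDiffWithinAt
  refine h1.clm_apply ?_
  rw [contDiffOn_clm_apply]
  intro w
  simp only [kos_apply]
  have h4 : ∀ a b c : V, ContDiffOn ℝ ∞ (fun z => fderiv ℝ G z a b c) U := fun a b c =>
    h.smooth_D a b c
  exact contDiffOn_const.mul (((h4 u v w).add (h4 v u w)).sub (h4 w u v))

theorem hasFDerivAt_chris (h : MetData U G) {z : V} (hz : z ∈ U) :
    HasFDerivAt (chris G) (fderiv ℝ (chris G) z) z :=
  ((h.smooth_chris.contDiffAt (h.isOpen.mem_nhds hz)).differentiableAt (by simp)).hasFDerivAt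

/-- The derivative of the Christoffel symbols is symmetric. -/
theorem D_torsion (h : MetData U G) {z : V} (hz : z ∈ U) (u v w : V) :
    fderiv ℝ (chris G) z u v w = fderiv ℝ (chris G) z u w v := by
  have h1 := hasFDerivAt_eval2 (h.hasFDerivAt_chris hz) v w
  have h2 := hasFDerivAt_eval2 (h.hasFDerivAt_chris hz) w v
  have h3 : (fun z => chris G z v w) =ᶠ[𝓝 z] fun z => chris G z w v := by
    filter_upwards [h.isOpen.mem_nhds hz] with z' hz' using h.torsion hz' v w
  have h4 := congrArg (fun L => L u) (h1.unique (h2.congr_of_eventuallyEq h3))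
  simpa using h4

end MetData

/-- The curvature tensor. -/
noncomputable def Rm (G : V → V →L[ℝ] V →L[ℝ] ℝ) (z u v w : V) : V :=
  fderiv ℝ (chris G) z u v w - fderiv ℝ (chris G) z v u w + chris G z u (chris G z v w)
    - chris G z v (chris G z u w)

namespace MetData

omit [FiniteDimensional ℝ V] in
/-- The derivative of the pairing of two sections. -/
theorem pairing (h : MetData U G) {z : V} (hz : z ∈ U) {X Y : V → V}
    {DX DY : V →L[ℝ] V} (hX : HasFDerivAt X DX z) (hY : HasFDerivAt Y DY z) :
    ∃ D : V →L[ℝ] ℝ, HasFDerivAt (fun z => G z (X z) (Y z)) D z ∧ ∀ u, D u =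
      fderiv ℝ G z u (X z) (Y z) + G z (DX u) (Y z) + G z (X z) (DY u) := by
  have h1 := ((h.hasFDerivAt_G hz).clm_apply hX).clm_apply hY
  refine ⟨_, h1, fun u => ?_⟩
  simp only [add_apply, ContinuousLinearMap.comp_apply, ContinuousLinearMap.flip_apply]
  ring

theorem Rm_antisymm (h : MetData U G) {z : V} (hz : z ∈ U) (u v w x : V) :
    G z (Rm G z u v w) x = - G z (Rm G z u v x) w := by
  -- second derivatives of the metric
  set f : V → ℝ := fun z => G z w x with hf
  have hfs : ContDiffAt ℝ ∞ f z := (h.smooth_eval w x).contDiffAt (h.isOpen.mem_nhds hz)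
  have hsec : ∀ a b : V, fderiv ℝ (fderiv ℝ f) z a b = fderiv ℝ (fderiv ℝ f) z b a := by
    intro a b
    have h2 : IsSymmSndFDerivAt ℝ f z := hfs.isSymmSndFDerivAt (by simp; norm_cast)
    rw [h2 a b]
  have hD : HasFDerivAt (fderiv ℝ f) (fderiv ℝ (fderiv ℝ f) z) z :=
    ((hfs.fderiv_right (m := 1) (by norm_cast)).differentiableAt (by simp)).hasFDerivAt
  have key : ∀ u v : V, fderiv ℝ (fderiv ℝ f) z u v =
      (fderiv ℝ G z u (chris G z v w) x + G z (fderiv ℝ (chris G) z u v w) x) +
      (fderiv ℝ G z u w (chris G z v x) + G z w (fderiv ℝ (chris G) z u v x)) := by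
    intro u v
    have h1 := hD.clm_apply (hasFDerivAt_const v z)
    obtain ⟨D1, hD1, hD1'⟩ := h.pairing hz (hasFDerivAt_eval2 (h.hasFDerivAt_chris hz) v w)
      (hasFDerivAt_const x z)
    obtain ⟨D2, hD2, hD2'⟩ := h.pairing hz (hasFDerivAt_const w z)
      (hasFDerivAt_eval2 (h.hasFDerivAt_chris hz) v x)
    have h3 : (fun z => fderiv ℝ f z v) =ᶠ[𝓝 z] fun z => G z (chris G z v w) x +
        G z w (chris G z v x) := by
      filter_upwards [h.isOpen.mem_nhds hz] with z' hz'
      rw [hf, ← h.D_eq hz' v w x]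
      exact h.comp hz' v w x
    have h4 := congrArg (fun L => L u) (h1.unique ((hD1.add hD2).congr_of_eventuallyEq h3))
    simp only [add_apply, ContinuousLinearMap.comp_apply, ContinuousLinearMap.flip_apply,
      hD1', hD2', zero_apply, map_zero, add_zero, zero_add] at h4
    exact h4
  have e1 := key u v
  have e2 := key v u
  rw [hsec u v] at e1
  rw [e2] at e1
  rw [h.comp hz u, h.comp hz u, h.comp hz v, h.comp hz v] at e1
  unfold Rm
  simp only [map_sub, map_add, sub_apply, add_apply]
  have s1 := h.symm hz w (fderiv ℝ (chris G) z u v x)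
  have s2 := h.symm hz w (fderiv ℝ (chris G) z v u x)
  have s3 := h.symm hz w (chris G z u (chris G z v x))
  have s4 := h.symm hz w (chris G z v (chris G z u x))
  linarith

theorem Rm_bianchi (h : MetData U G) {z : V} (hz : z ∈ U) (u v w : V) :
    Rm G z u v w + Rm G z v w u + Rm G z w u v = 0 := by
  unfold Rm
  rw [h.D_torsion hz u v w, h.D_torsion hz v w u, h.D_torsion hz w u v,
    h.torsion hz v w, h.torsion hz w u, h.torsion hz u v]
  abel

/-- A metric of constant sectional curvature. -/
theorem curvData (h : MetData U G) (hdim : 2 ≤ finrank ℝ V)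
    (hK : ∀ z ∈ U, ∀ u v : V, G z u u * G z v v - G z u v ^ 2 ≠ 0 →
      G z (Rm G z u v v) u = K * (G z u u * G z v v - G z u v ^ 2)) :
    CurvData U G (chris G) K where
  isOpen := h.isOpen
  symm := fun z hz => h.symm hz
  smoothG := h.smoothG
  smoothΓ := h.smooth_chris
  comp := fun z hz => h.comp hz
  torsion := fun z hz => h.torsion hz
  curv := by
    intro z hz u v w
    set T : V → V → V → V → ℝ := fun u v w x =>
      G z (Rm G z u v w) x - K * (G z v w * G z u x - G z u w * G z v x) with hT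
    have hT0 : ∀ u v w x, T u v w x = 0 := by
      refine curv_zero ?_ ?_ ?_ ?_ ?_ ?_ ?_ ?_
      · intro u u' v w x
        simp only [hT, Rm, map_add, map_sub, add_apply, sub_apply]; ring
      · intro u v v' w x
        simp only [hT, Rm, map_add, map_sub, add_apply, sub_apply]; ring
      · intro u v w w' x
        simp only [hT, Rm, map_add, map_sub, add_apply, sub_apply]; ring
      · intro u v w x x'
        simp only [hT, map_add]; ring
      · intro u v w x
        simp only [hT, Rm, map_add, map_sub, add_apply, sub_apply]; ring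
      · intro u v w x
        simp only [hT]
        rw [h.Rm_antisymm hz u v w x]; ring
      · intro u v w x
        have h1 := congrArg (fun y => G z y x) (h.Rm_bianchi hz u v w)
        simp only [map_add, add_apply, map_zero, zero_apply] at h1
        simp only [hT]
        rw [h.symm hz w v, h.symm hz u w, h.symm hz v u]
        linarith
      · refine sect_all (h.lor z hz) hdim (S := fun u v => T u v v u) ?_ ?_
        · intro u v u0 v0
          simp only [hT, Rm]
          fun_prop
        · intro u v huv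
          simp only [hT]
          rw [hK z hz u v huv, h.symm hz v u]
          ring
    have h2 : Rm G z u v w - K • (G z v w • u - G z u w • v) = 0 := by
      refine h.nondeg hz _ fun x => ?_
      have h3 := hT0 u v w x
      simp only [hT] at h3
      simp only [map_sub, map_smul, sub_apply, smul_apply, smul_eq_mul]
      linarith
    exact sub_eq_zero.1 h2

end MetData

end Pool.H1.Lor.CT
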